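import Pool.Agent.R766.RG.Green

/-!
# Spanning forests of finite sets; one walker permutes them
-/

open MeasureTheory Filter Topology

noncomputable section

open scoped Classical

namespace R766.RG

variable {V : Type*} {G : SimpleGraph V}

/-- The oriented edges `x → f x`, for `x` in the finite set `Λ`. -/
def Edge (Λ : Finset V) (f : ∀ x : {x // x ∈ Λ}, G.neighborSet x.1) (x y : V) : Prop :=
  ∃ hx : x ∈ Λ, y = (f ⟨x, hx⟩ : V)

/-- `f` is a spanning forest oriented towards the complement of `Λ`: each vertex of `Λ` has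
one out-edge, to the neighbour `f x`, the other vertices have none, and there is no oriented
cycle. -/
def IsForest (Λ : Finset V) (f : ∀ x : {x // x ∈ Λ}, G.neighborSet x.1) : Prop :=
  ∀ x, ¬ Relation.TransGen (Edge Λ f) x x

/-! ### The map of a configuration -/

variable {τ : ∀ x, Equiv.Perm (G.neighborSet x)}

/-- Follow the rotor in `D`, and go to `a` outside of `D`. -/
def hat (D : Finset V) (a : V) (ρ : Cfg G) (v : V) : V := if v ∈ D then (ρ v : V) else a

/-- The restriction of a configuration. -/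
def res (D : Finset V) (ρ : Cfg G) : ∀ x : {x // x ∈ D}, G.neighborSet x.1 := fun x => ρ x.1

lemma exits_of_forest {D : Finset V} {a : V} {ρ : Cfg G} (hf : IsForest D (res D ρ)) (v : V) :
    ∃ k, (hat D a ρ)^[k] v ∉ D := by
  by_cases hv : v ∈ D
  · let r : {x // x ∈ D} → {x // x ∈ D} → Prop :=
      fun y x => Relation.TransGen (Edge D (res D ρ)) x.1 y.1
    have : IsTrans _ r := ⟨fun a b c hab hbc => Relation.TransGen.trans hbc hab⟩
    have : Std.Irrefl r := ⟨fun a ha => hf _ ha⟩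
    have hwf : WellFounded r := Finite.wellFounded_of_trans_of_irrefl r
    have key : ∀ y : {x // x ∈ D}, ∃ k, (hat D a ρ)^[k] y.1 ∉ D := by
      intro y
      induction y using hwf.induction with
      | _ y ih =>
        have hy : hat D a ρ y.1 = (ρ y.1 : V) := by simp [hat, y.2]
        by_cases hn : (ρ y.1 : V) ∈ D
        · obtain ⟨k, hk⟩ := ih ⟨_, hn⟩ (Relation.TransGen.single ⟨y.2, rfl⟩)
          refine ⟨k + 1, ?_⟩
          rw [Function.iterate_succ_apply, hy]
          exact hk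
        · exact ⟨1, by rw [Function.iterate_one, hy]; exact hn⟩
    exact key ⟨v, hv⟩
  · exact ⟨0, hv⟩

lemma forest_of_exits {D : Finset V} {a : V} {ρ : Cfg G}
    (h : ∀ v, ∃ k, (hat D a ρ)^[k] v ∉ D) : IsForest D (res D ρ) := by
  intro x
  obtain ⟨k, hk⟩ := h x
  induction k generalizing x with
  | zero =>
    intro hT
    obtain ⟨b, ⟨hb, _⟩, _⟩ := Relation.TransGen.head'_iff.1 hT
    exact hk hb
  | succ k ih =>
    intro hT
    obtain ⟨b, ⟨hb, hb'⟩, hbx⟩ := Relation.TransGen.head'_iff.1 hT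
    have hx : hat D a ρ x = (ρ x : V) := by simp [hat, hb]
    rw [Function.iterate_succ_apply, hx] at hk
    apply ih _ hk
    have hb2 : b = (ρ x : V) := hb'
    rw [hb2] at hbx
    exact Relation.TransGen.tail' hbx ⟨hb, rfl⟩

/-- Every vertex leads to `w`. -/
def U (D : Finset V) (a : V) (w : V) (ρ : Cfg G) : Prop := ∀ v, ∃ k, (hat D a ρ)^[k] v = w

lemma iter_congr {α : Type*} {f f' : α → α} {w : α} (h : ∀ v, v ≠ w → f' v = f v) :
    ∀ (k : ℕ) (v : α), f^[k] v = w → ∃ k', f'^[k'] v = w := by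
  intro k
  induction k with
  | zero => exact fun v hv => ⟨0, hv⟩
  | succ k ih =>
    intro v hv
    by_cases hvw : v = w
    · exact ⟨0, hvw⟩
    · rw [Function.iterate_succ_apply] at hv
      obtain ⟨k', hk'⟩ := ih (f v) hv
      refine ⟨k' + 1, ?_⟩
      rw [Function.iterate_succ_apply, h v hvw]
      exact hk'

lemma hat_step_ne {D : Finset V} {a w : V} {ρ : Cfg G} (v : V) (hv : v ≠ w) :
    hat D a (step τ (w, ρ)).2 v = hat D a ρ v := by
  simp only [hat, step]
  rw [Function.update_of_ne hv]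

lemma hat_step_self {D : Finset V} {a w : V} {ρ : Cfg G} (hw : w ∈ D) :
    hat D a (step τ (w, ρ)).2 w = (step τ (w, ρ)).1 := by
  simp only [hat, step, if_pos hw]
  rw [Function.update_self]

lemma lead_step {D : Finset V} {a w : V} {ρ : Cfg G} (h : U D a w ρ) (v : V) :
    ∃ k, (hat D a (step τ (w, ρ)).2)^[k] v = w := by
  obtain ⟨k, hk⟩ := h v
  exact iter_congr (fun v hv => hat_step_ne v hv) k v hk

lemma U_step {D : Finset V} {a w : V} {ρ : Cfg G} (h : U D a w ρ) (hw : w ∈ D) :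
    U D a (step τ (w, ρ)).1 (step τ (w, ρ)).2 := by
  intro v
  obtain ⟨k, hk⟩ := lead_step (τ := τ) h v
  refine ⟨k + 1, ?_⟩
  rw [Function.iterate_succ_apply', hk, hat_step_self hw]

lemma U_start {D : Finset V} {a : V} {ρ : Cfg G} (hf : IsForest D (res D ρ)) : U D a a ρ := by
  intro v
  obtain ⟨k, hk⟩ := exits_of_forest (a := a) hf v
  refine ⟨k + 1, ?_⟩
  rw [Function.iterate_succ_apply']
  simp [hat, hk]

lemma U_walk {D : Finset V} {a : V} {ρ : Cfg G} (hf : IsForest D (res D ρ)) (t : ℕ)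
    (ht : ∀ s < t, (walk τ a ρ s).1 ∈ D) : U D a (walk τ a ρ t).1 (walk τ a ρ t).2 := by
  induction t with
  | zero => exact U_start hf
  | succ t ih =>
    rw [walk_succ]
    have h1 := ih (fun s hs => ht s (by omega))
    exact U_step (w := (walk τ a ρ t).1) (ρ := (walk τ a ρ t).2) h1 (ht t (by omega))

lemma two_hits {α : Type*} {f : α → α} {w' w₁ w₂ : α} (h₁ : f w₁ = w')
    (e₁ : ∃ k, f^[k] w' = w₁) (e₂ : ∃ k, f^[k] w' = w₂) : Nat.find e₂ ≤ Nat.find e₁ := by
  by_contra hcon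
  push Not at hcon
  have hk1 := Nat.find_spec e₁
  have hk2 := Nat.find_spec e₂
  set k1 := Nat.find e₁
  set k2 := Nat.find e₂ with hk2def
  have h3 : f^[k2 - (k1 + 1)] w' = w₂ := by
    rw [← hk2]
    conv_rhs => rw [show k2 = (k2 - (k1 + 1)) + (k1 + 1) by omega, Function.iterate_add_apply,
      Function.iterate_succ_apply', hk1, h₁]
  have h4 : Nat.find e₂ ≤ k2 - (k1 + 1) := Nat.find_min' e₂ h3
  omega

/-- Backward uniqueness. -/
lemma back_unique {D : Finset V} {a w₁ w₂ : V} {ρ₁ ρ₂ : Cfg G} (h₁ : U D a w₁ ρ₁)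
    (h₂ : U D a w₂ ρ₂) (hw₁ : w₁ ∈ D) (hw₂ : w₂ ∈ D)
    (he : step τ (w₁, ρ₁) = step τ (w₂, ρ₂)) : w₁ = w₂ ∧ ρ₁ = ρ₂ := by
  set f := hat D a (step τ (w₁, ρ₁)).2 with hf
  set w' := (step τ (w₁, ρ₁)).1 with hw'
  have f1 : f w₁ = w' := hat_step_self hw₁
  have f2 : f w₂ = w' := by
    rw [hf, hw', he]; exact hat_step_self hw₂
  have e1 : ∃ k, f^[k] w' = w₁ := lead_step h₁ w'
  have e2 : ∃ k, f^[k] w' = w₂ := by
    have := lead_step (τ := τ) h₂ w'
    rw [← he] at this
    exact this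
  have h12 : Nat.find e1 = Nat.find e2 := le_antisymm (two_hits f2 e2 e1) (two_hits f1 e1 e2)
  have hw : w₁ = w₂ := by
    rw [← Nat.find_spec e1, ← Nat.find_spec e2, h12]
  subst hw
  refine ⟨rfl, ?_⟩
  have h3 : (step τ (w₁, ρ₁)).2 = (step τ (w₁, ρ₂)).2 := by rw [he]
  simp only [step] at h3
  funext y
  have h4 := congrFun h3 y
  by_cases hy : y = w₁
  · subst hy
    rw [Function.update_self, Function.update_self] at h4
    exact (τ y).injective h4
  · rwa [Function.update_of_ne hy, Function.update_of_ne hy] at h4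

/-- If `f w = a`, `w` is on the orbit of `a`, and the orbit of `a` leaves `D` only to return to
`a`, then `w` is the exit point. -/
lemma orbit_exit {α : Type*} {f : α → α} {D : Set α} {a w : α} (hout : ∀ v ∉ D, f v = a)
    {j : ℕ} (hj : f^[j] a ∉ D) (hjm : ∀ i < j, f^[i] a ∈ D)
    (hw : ∃ k, f^[k] a = w) (h : f w = a ∨ w ∉ D) :
    w = f^[j] a := by
  have hk := Nat.find_spec hw
  set k := Nat.find hw with hkdef
  rcases lt_trichotomy k j with hlt | heq | hgt
  · exfalso
    have hkD : f^[k] a ∈ D := hjm k hlt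
    rw [hk] at hkD
    rcases h with h | h
    · have h1 : f^[k + 1] a = a := by rw [Function.iterate_succ_apply', hk, h]
      have h2 : f^[j - (k + 1)] a = f^[j] a := by
        conv_rhs => rw [show j = (j - (k + 1)) + (k + 1) by omega, Function.iterate_add_apply, h1]
      exact hj (h2 ▸ hjm _ (by omega))
    · exact h hkD
  · rw [← hk, heq]
  · exfalso
    have h1 : f^[j + 1] a = a := by rw [Function.iterate_succ_apply', hout _ hj]
    have h2 : f^[k - (j + 1)] a = w := by
      rw [← hk]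
      conv_rhs => rw [show k = (k - (j + 1)) + (j + 1) by omega, Function.iterate_add_apply, h1]
    exact absurd (Nat.find_min' hw h2) (by omega)

lemma first_exit {α : Type*} {f : α → α} {D : Set α} {a : α} (hex : ∃ k, f^[k] a ∉ D) :
    ∃ j, f^[j] a ∉ D ∧ ∀ i < j, f^[i] a ∈ D :=
  ⟨Nat.find hex, Nat.find_spec hex, fun i hi => by
    by_contra hcon
    exact Nat.find_min hex hi hcon⟩

lemma hat_out {D : Finset V} {a : V} {ρ : Cfg G} : ∀ v ∉ (D : Set V), hat D a ρ v = a := by
  intro v hv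
  have : v ∉ D := hv
  simp [hat, this]

/-- An initial state is not reached by a step. -/
lemma not_start {D : Finset V} {a w : V} {ρ ρ₀ : Cfg G} (hf : IsForest D (res D ρ₀))
    (h : U D a w ρ) (hw : w ∈ D) (he : step τ (w, ρ) = (a, ρ₀)) : False := by
  have h1 : hat D a ρ₀ w = a := by
    have := hat_step_self (τ := τ) (a := a) (ρ := ρ) hw
    rw [he] at this
    exact this
  have h2 : ∃ k, (hat D a ρ₀)^[k] a = w := by
    have := lead_step (τ := τ) h a
    rw [he] at this
    exact this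
  have hex : ∃ k, (hat D a ρ₀)^[k] a ∉ (D : Set V) := exits_of_forest hf a
  obtain ⟨j, hj, hjm⟩ := first_exit hex
  have h3 := orbit_exit hat_out hj hjm h2 (Or.inl h1)
  rw [← h3] at hj
  exact hj hw

/-- One walker maps forests to forests. -/
lemma E_forest {D : Finset V} {a : V} (he : Leaves τ D a) {ρ : Cfg G}
    (hf : IsForest D (res D ρ)) : IsForest D (res D (E τ D a ρ)) := by
  have h1 := U_walk (τ := τ) (a := a) hf (exitT τ D a ρ) (fun s hs => before_exit hs)
  apply forest_of_exits (a := a)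
  intro v
  obtain ⟨k, hk⟩ := h1 v
  refine ⟨k, ?_⟩
  unfold E
  rw [hk]
  exact exit_spec he ρ

lemma E_inj_aux {D : Finset V} {a : V} {ρ₁ ρ₂ : Cfg G}
    (hf₁ : IsForest D (res D ρ₁)) (hf₂ : IsForest D (res D ρ₂)) (T₁ T₂ : ℕ)
    (h₁ : ∀ s < T₁, (walk τ a ρ₁ s).1 ∈ D) (h₂ : ∀ s < T₂, (walk τ a ρ₂ s).1 ∈ D)
    (hle : T₁ ≤ T₂) (heq : walk τ a ρ₁ T₁ = walk τ a ρ₂ T₂) : ρ₁ = ρ₂ := by
  induction T₁ generalizing T₂ with
  | zero =>
    cases T₂ with
    | zero =>
      rw [walk_zero, walk_zero] at heq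
      exact congrArg Prod.snd heq
    | succ T₂ =>
      exfalso
      rw [walk_succ, walk_zero] at heq
      have h3 := U_walk (τ := τ) hf₂ T₂ (fun s hs => h₂ s (by omega))
      exact not_start (τ := τ) (w := (walk τ a ρ₂ T₂).1) (ρ := (walk τ a ρ₂ T₂).2) hf₁ h3
        (h₂ T₂ (by omega)) heq.symm
  | succ T₁ ih =>
    cases T₂ with
    | zero => omega
    | succ T₂ =>
      rw [walk_succ, walk_succ] at heq
      have h3 := U_walk (τ := τ) hf₁ T₁ (fun s hs => h₁ s (by omega))
      have h4 := U_walk (τ := τ) hf₂ T₂ (fun s hs => h₂ s (by omega))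
      have h5 := back_unique (τ := τ) h3 h4 (h₁ T₁ (by omega)) (h₂ T₂ (by omega)) heq
      exact ih T₂ (fun s hs => h₁ s (by omega)) (fun s hs => h₂ s (by omega)) (by omega)
        (Prod.ext h5.1 h5.2)

/-- One walker acts injectively on forests. -/
lemma E_inj {D : Finset V} {a : V} (he : Leaves τ D a) {ρ₁ ρ₂ : Cfg G}
    (hf₁ : IsForest D (res D ρ₁)) (hf₂ : IsForest D (res D ρ₂))
    (heq : E τ D a ρ₁ = E τ D a ρ₂) : ρ₁ = ρ₂ := by
  have hU₁ := U_walk (τ := τ) (a := a) hf₁ (exitT τ D a ρ₁) (fun s hs => before_exit hs)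
  have hU₂ := U_walk (τ := τ) (a := a) hf₂ (exitT τ D a ρ₂) (fun s hs => before_exit hs)
  have hz₁ : (walk τ a ρ₁ (exitT τ D a ρ₁)).2 = E τ D a ρ₁ := rfl
  have hz₂ : (walk τ a ρ₂ (exitT τ D a ρ₂)).2 = E τ D a ρ₁ := by rw [heq]; rfl
  rw [hz₁] at hU₁
  rw [hz₂] at hU₂
  have hex : ∃ k, (hat D a (E τ D a ρ₁))^[k] a ∉ (D : Set V) :=
    exits_of_forest (E_forest he hf₁) a
  obtain ⟨j, hj, hjm⟩ := first_exit hex
  have h1 := orbit_exit hat_out hj hjm (hU₁ a) (Or.inr (exit_spec he ρ₁))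
  have h2 := orbit_exit hat_out hj hjm (hU₂ a) (Or.inr (exit_spec he ρ₂))
  have h3 : walk τ a ρ₁ (exitT τ D a ρ₁) = walk τ a ρ₂ (exitT τ D a ρ₂) :=
    Prod.ext (h1.trans h2.symm) (hz₁.trans hz₂.symm)
  rcases le_total (exitT τ D a ρ₁) (exitT τ D a ρ₂) with h | h
  · exact E_inj_aux hf₁ hf₂ _ _ (fun s hs => before_exit hs) (fun s hs => before_exit hs) h h3
  · exact (E_inj_aux hf₂ hf₁ _ _ (fun s hs => before_exit hs) (fun s hs => before_exit hs) h
      h3.symm).symm

/-- One walker does not change the configuration outside of `D`. -/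
lemma E_out {D : Finset V} {a : V} (ρ : Cfg G) {x : V} (hx : x ∉ D) :
    E τ D a ρ x = ρ x := by
  have key : ∀ t ≤ exitT τ D a ρ, (walk τ a ρ t).2 x = ρ x := by
    intro t
    induction t with
    | zero => exact fun _ => rfl
    | succ t ih =>
      intro ht
      rw [walk_succ]
      simp only [step]
      rw [Function.update_of_ne, ih (by omega)]
      rintro rfl
      exact hx (before_exit (by omega))
  exact key _ le_rfl

/-! ### The finite set of forests, as configurations -/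

variable [G.LocallyFinite]

/-- The finite set of the spanning forests oriented towards the complement of `Λ`. -/
def forests (G : SimpleGraph V) [G.LocallyFinite] (Λ : Finset V) :
    Finset (∀ x : {x // x ∈ Λ}, G.neighborSet x.1) :=
  Finset.univ.filter (IsForest Λ)

/-- Extension of a forest by a fixed configuration. -/
def ext (D : Finset V) (ρ₀ : Cfg G) (f : ∀ x : {x // x ∈ D}, G.neighborSet x.1) : Cfg G :=
  fun x => if hx : x ∈ D then f ⟨x, hx⟩ else ρ₀ x

lemma res_ext (D : Finset V) (ρ₀ : Cfg G) (f : ∀ x : {x // x ∈ D}, G.neighborSet x.1) :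
    res D (ext D ρ₀ f) = f := by
  funext x
  simp [res, ext, x.2]

lemma ext_res {D : Finset V} {ρ₀ ρ : Cfg G} (h : ∀ x ∉ D, ρ x = ρ₀ x) :
    ext D ρ₀ (res D ρ) = ρ := by
  funext x
  by_cases hx : x ∈ D
  · simp [res, ext, hx]
  · simp [ext, hx, h x hx]

/-- The induced map on forests. -/
def T (τ : ∀ x, Equiv.Perm (G.neighborSet x)) (D : Finset V) (a : V) (ρ₀ : Cfg G)
    (f : ∀ x : {x // x ∈ D}, G.neighborSet x.1) : ∀ x : {x // x ∈ D}, G.neighborSet x.1 :=
  res D (E τ D a (ext D ρ₀ f))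

lemma ext_T (D : Finset V) (a : V) (ρ₀ : Cfg G) (f : ∀ x : {x // x ∈ D}, G.neighborSet x.1) :
    ext D ρ₀ (T τ D a ρ₀ f) = E τ D a (ext D ρ₀ f) := by
  unfold T
  apply ext_res
  intro x hx
  rw [E_out _ hx]
  simp [ext, hx]

lemma ext_T_iter (D : Finset V) (a : V) (ρ₀ : Cfg G) (f : ∀ x : {x // x ∈ D}, G.neighborSet x.1)
    (n : ℕ) : ext D ρ₀ ((T τ D a ρ₀)^[n] f) = (E τ D a)^[n] (ext D ρ₀ f) := by
  induction n with
  | zero => rfl
  | succ n ih => rw [Function.iterate_succ_apply', Function.iterate_succ_apply', ext_T, ih]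

lemma T_mem {D : Finset V} {a : V} (he : Leaves τ D a) (ρ₀ : Cfg G)
    {f : ∀ x : {x // x ∈ D}, G.neighborSet x.1} (hf : f ∈ forests G D) :
    T τ D a ρ₀ f ∈ forests G D := by
  simp only [forests, Finset.mem_filter, Finset.mem_univ, true_and] at hf ⊢
  unfold T
  apply E_forest he
  rw [res_ext]
  exact hf

lemma T_inj {D : Finset V} {a : V} (he : Leaves τ D a) (ρ₀ : Cfg G)
    {f g : ∀ x : {x // x ∈ D}, G.neighborSet x.1} (hf : f ∈ forests G D) (hg : g ∈ forests G D)
    (h : T τ D a ρ₀ f = T τ D a ρ₀ g) : f = g := by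
  simp only [forests, Finset.mem_filter, Finset.mem_univ, true_and] at hf hg
  have h1 : E τ D a (ext D ρ₀ f) = E τ D a (ext D ρ₀ g) := by
    rw [← ext_T, ← ext_T, h]
  have h2 := E_inj he (by rw [res_ext]; exact hf) (by rw [res_ext]; exact hg) h1
  rw [← res_ext D ρ₀ f, ← res_ext D ρ₀ g, h2]

end R766.RG
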