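import Pool.Agent.R766.RG.Vol

/-!
# Green functions, harmonic weights and the deterministic bounds
-/

open MeasureTheory Filter Topology

noncomputable section

open scoped Classical

namespace R766.RG

variable {V : Type*} (G : SimpleGraph V) [G.LocallyFinite]

/-- The probability that simple random walk from `x` is at `y` at time `t`. -/
def prob : ℕ → V → V → ENNReal
  | 0, x, y => if x = y then 1 else 0
  | t + 1, x, y => (∑ z ∈ G.neighborFinset x, prob t z y) / (G.degree x : ENNReal)

/-- The expected number of visits to `y` of simple random walk from `x` (times `t ≥ 0`). -/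
def green (x y : V) : ENNReal := ∑' t, prob G t x y

/-- The same probability for the walk killed when leaving `D`. -/
def probK (D : Finset V) : ℕ → V → V → ENNReal
  | 0, x, y => if x = y ∧ x ∈ D then 1 else 0
  | t + 1, x, y =>
    if x ∈ D then (∑ z ∈ G.neighborFinset x, probK D t z y) / (G.degree x : ENNReal) else 0

/-- The Green function of the killed walk. -/
def greenK (D : Finset V) (x y : V) : ENNReal := ∑' t, probK G D t x y

variable {G}

lemma probK_le (D : Finset V) (t : ℕ) : ∀ x y, probK G D t x y ≤ prob G t x y := by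
  induction t with
  | zero =>
    intro x y
    simp only [probK, prob]
    by_cases h : x = y
    · rw [if_pos h]; split_ifs <;> simp
    · rw [if_neg (fun h' => h h'.1), if_neg h]
  | succ t ih =>
    intro x y
    simp only [probK, prob]
    split_ifs
    · gcongr
      exact ih _ _
    · exact zero_le

lemma greenK_le (D : Finset V) (x y : V) : greenK G D x y ≤ green G x y :=
  ENNReal.tsum_le_tsum (fun t => probK_le D t x y)

lemma probK_out (D : Finset V) {x : V} (hx : x ∉ D) (t : ℕ) (y : V) : probK G D t x y = 0 := by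
  cases t with
  | zero => simp [probK, hx]
  | succ t => simp [probK, hx]

lemma greenK_out (D : Finset V) {x : V} (hx : x ∉ D) (y : V) : greenK G D x y = 0 := by
  unfold greenK
  simp [probK_out D hx]

lemma greenK_rec (D : Finset V) {x : V} (hx : x ∈ D) (y : V) :
    greenK G D x y = (if x = y then 1 else 0) +
      (∑ z ∈ G.neighborFinset x, greenK G D z y) / (G.degree x : ENNReal) := by
  unfold greenK
  rw [tsum_eq_zero_add' ENNReal.summable]
  congr 1
  · simp [probK, hx]
  · simp only [probK, if_pos hx]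
    simp only [div_eq_mul_inv]
    rw [ENNReal.tsum_mul_right, Summable.tsum_finsetSum (fun _ _ => ENNReal.summable)]

lemma probK_eventually (Λ : ℕ → Finset V) (hmono : Monotone Λ) (hex : ∀ x, ∃ R, x ∈ Λ R)
    (t : ℕ) : ∀ x y, ∀ᶠ R in atTop, probK G (Λ R) t x y = prob G t x y := by
  have hev : ∀ x, ∀ᶠ R in atTop, x ∈ Λ R := by
    intro x
    obtain ⟨R, hR⟩ := hex x
    filter_upwards [eventually_ge_atTop R] with R' hR'
    exact hmono hR' hR
  induction t with
  | zero =>
    intro x y
    filter_upwards [hev x] with R hR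
    simp [probK, prob, hR]
  | succ t ih =>
    intro x y
    have h1 : ∀ᶠ R in atTop, ∀ z ∈ G.neighborFinset x,
        probK G (Λ R) t z y = prob G t z y := by
      rw [Filter.eventually_all_finset]
      exact fun z _ => ih z y
    filter_upwards [hev x, h1] with R hR hR'
    simp only [probK, prob, if_pos hR]
    rw [Finset.sum_congr rfl hR']

lemma green_lt_eventually (Λ : ℕ → Finset V) (hmono : Monotone Λ) (hex : ∀ x, ∃ R, x ∈ Λ R)
    (x y : V) {c : ENNReal} (hc : c < green G x y) :
    ∀ᶠ R in atTop, c < greenK G (Λ R) x y := by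
  unfold green at hc
  rw [ENNReal.tsum_eq_iSup_nat] at hc
  obtain ⟨T, hT⟩ := lt_iSup_iff.1 hc
  have h1 : ∀ᶠ R in atTop, ∀ t ∈ Finset.range T, probK G (Λ R) t x y = prob G t x y := by
    rw [Filter.eventually_all_finset]
    exact fun t _ => probK_eventually Λ hmono hex t x y
  filter_upwards [h1] with R hR
  refine lt_of_lt_of_le hT ?_
  rw [← Finset.sum_congr rfl hR]
  exact ENNReal.sum_le_tsum _

/-! ### Transience for all pairs -/

lemma prob_add_ge (s t : ℕ) (x y z : V) : prob G s x y * prob G t y z ≤ prob G (s + t) x z := by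
  induction s generalizing x with
  | zero =>
    simp only [prob, zero_add]
    split_ifs with h
    · rw [h, one_mul]
    · rw [zero_mul]; exact zero_le
  | succ s ih =>
    rw [show s + 1 + t = (s + t) + 1 by ring]
    simp only [prob, div_eq_mul_inv]
    rw [mul_right_comm]
    gcongr
    rw [Finset.sum_mul]
    exact Finset.sum_le_sum (fun w _ => ih w)

lemma exists_prob_pos (hconn : G.Connected) (x y : V) : ∃ t, prob G t x y ≠ 0 := by
  obtain ⟨p⟩ := hconn.preconnected x y
  induction p with
  | nil => exact ⟨0, by simp [prob]⟩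
  | cons h p ih =>
    obtain ⟨t, ht⟩ := ih
    refine ⟨t + 1, ?_⟩
    simp only [prob]
    rw [ne_eq, ENNReal.div_eq_zero_iff, not_or]
    refine ⟨fun hcon => ht ?_, by simp⟩
    rw [Finset.sum_eq_zero_iff] at hcon
    exact hcon _ ((G.mem_neighborFinset _ _).2 h)

lemma prob_le_one (t : ℕ) : ∀ x y, prob G t x y ≤ 1 := by
  induction t with
  | zero => intro x y; simp only [prob]; split_ifs <;> simp
  | succ t ih =>
    intro x y
    simp only [prob]
    apply ENNReal.div_le_of_le_mul
    rw [one_mul]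
    calc ∑ z ∈ G.neighborFinset x, prob G t z y ≤ ∑ z ∈ G.neighborFinset x, (1 : ENNReal) :=
          Finset.sum_le_sum (fun z _ => ih z y)
      _ = (G.degree x : ENNReal) := by simp

lemma green_ne_top (hconn : G.Connected) {o : V} (ho : green G o o ≠ ⊤) (x y : V) :
    green G x y ≠ ⊤ := by
  obtain ⟨s, hs⟩ := exists_prob_pos hconn o x
  obtain ⟨u, hu⟩ := exists_prob_pos hconn y o
  have h1 : ∀ t, prob G s o x * prob G t x y * prob G u y o ≤ prob G (s + t + u) o o := by
    intro t
    refine le_trans ?_ (prob_add_ge (s + t) u o y o)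
    gcongr
    exact prob_add_ge s t o x y
  have h2 : prob G s o x * green G x y * prob G u y o ≤ green G o o := by
    unfold green
    rw [← ENNReal.tsum_mul_left, ← ENNReal.tsum_mul_right]
    refine (ENNReal.tsum_le_tsum h1).trans ?_
    have hinj : Function.Injective (fun t : ℕ => s + t + u) := fun a b h => by
      simp only at h; omega
    exact ENNReal.tsum_comp_le_tsum_of_injective hinj (fun t => prob G t o o)
  intro htop
  apply ho
  rw [htop, ENNReal.mul_top hs, ENNReal.top_mul hu] at h2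
  exact top_le_iff.1 h2

/-! ### Weights -/

lemma exists_weight {α : Type*} [Fintype α] (σ : Equiv.Perm α) (hσ : SingleOrbit σ) (D : α → ℝ)
    (hk : ∑ e, D e = 0) : ∃ w : α → ℝ, ∀ e, w (σ e) = w e - D (σ e) := by
  rcases isEmpty_or_nonempty α with hemp | hne
  · exact ⟨fun _ => 0, fun e => hemp.elim e⟩
  set n : ℕ := (Finset.univ : Finset α).card with hn
  have hn0 : (0 : ℝ) < n := by
    rw [hn]
    exact_mod_cast Finset.card_pos.2 Finset.univ_nonempty
  have hcyc : σ.IsCycleOn ((Finset.univ : Finset α) : Set α) := by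
    refine ⟨?_, ?_⟩
    · rw [Finset.coe_univ]
      exact Set.bijOn_univ.2 σ.bijective
    · intro x _ y _
      obtain ⟨m, hm⟩ := hσ x y
      exact ⟨m, by rw [zpow_natCast]; exact hm⟩
  have hsum : ∀ e, ∑ j ∈ Finset.range n, D ((σ ^ (j + 1)) e) = 0 := by
    intro e
    have hinj : Set.InjOn (fun j : ℕ => (σ ^ (j + 1)) e) (Finset.range n : Set ℕ) := by
      intro a ha b hb hab
      have h1 := (hcyc.pow_apply_eq_pow_apply (Finset.mem_univ e)).1 hab
      have h2 : a ≡ b [MOD n] := Nat.ModEq.add_right_cancel' 1 h1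
      exact Nat.ModEq.eq_of_lt_of_lt h2 (by simpa using ha) (by simpa using hb)
    have himg : (Finset.range n).image (fun j : ℕ => (σ ^ (j + 1)) e) = Finset.univ := by
      apply Finset.eq_univ_of_card
      rw [Finset.card_image_of_injOn hinj, Finset.card_range, hn, Finset.card_univ]
    rw [← hk, ← himg, Finset.sum_image hinj]
  refine ⟨fun e => -((1 / (n : ℝ)) * ∑ j ∈ Finset.range n, (j : ℝ) * D ((σ ^ (j + 1)) e)), ?_⟩
  intro e
  have h1 : ∀ j : ℕ, (σ ^ (j + 1)) (σ e) = (σ ^ (j + 1 + 1)) e := by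
    intro j
    rw [pow_succ σ (j + 1), Equiv.Perm.mul_apply]
  simp only [h1]
  have h2 : ∑ j ∈ Finset.range n, (j : ℝ) * D ((σ ^ (j + 1 + 1)) e)
      = ∑ j ∈ Finset.range n, (j : ℝ) * D ((σ ^ (j + 1)) e) + n * D (σ e) := by
    have h3 : ∑ j ∈ Finset.range n, (j : ℝ) * D ((σ ^ (j + 1 + 1)) e)
        = ∑ j ∈ Finset.range n, ((j + 1 : ℕ) : ℝ) * D ((σ ^ (j + 1 + 1)) e)
          - ∑ j ∈ Finset.range n, D ((σ ^ (j + 1)) (σ e)) := by
      rw [← Finset.sum_sub_distrib]
      refine Finset.sum_congr rfl (fun j _ => ?_)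
      rw [h1]; push_cast; ring
    rw [h3, hsum (σ e)]
    have h4 : ∑ j ∈ Finset.range n, ((j + 1 : ℕ) : ℝ) * D ((σ ^ (j + 1 + 1)) e)
        = ∑ j ∈ Finset.range (n + 1), (j : ℝ) * D ((σ ^ (j + 1)) e) := by
      rw [Finset.sum_range_succ' (fun j : ℕ => (j : ℝ) * D ((σ ^ (j + 1)) e))]
      simp
    rw [h4, Finset.sum_range_succ]
    have h5 : (σ ^ (n + 1)) e = σ e := by
      rw [pow_succ', Equiv.Perm.mul_apply, hcyc.pow_card_apply (Finset.mem_univ e)]
    rw [h5]
    ring
  rw [h2]
  field_simp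
  ring

/-- The real Green function of the killed walk. -/
def hK (D : Finset V) (y z : V) : ℝ := (greenK G D y z).toReal

variable (τ : ∀ x, Equiv.Perm (G.neighborSet x))

lemma exists_pot (hτ : ∀ x, SingleOrbit (τ x)) (D : Finset V) (z : V)
    (hfin : ∀ x, greenK G D x z ≠ ⊤) (hdeg : ∀ x, 0 < G.degree x) :
    ∃ (W : Cfg G → ℝ) (C : ℝ), (∀ ρ, |W ρ| ≤ C) ∧
      ∀ (x : V) (ρ : Cfg G), x ∈ D →
        hK (G := G) D (step τ (x, ρ)).1 z + W (step τ (x, ρ)).2
          = hK (G := G) D x z + W ρ - if x = z then 1 else 0 := by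
  have hrec : ∀ y ∈ D, ∑ e : G.neighborSet y,
      (hK (G := G) D (e : V) z - (hK (G := G) D y z - if y = z then 1 else 0)) = 0 := by
    intro y hy
    have h1 := congrArg ENNReal.toReal (greenK_rec (G := G) D hy z)
    rw [ENNReal.toReal_add (by split_ifs <;> simp) (by
      apply ENNReal.div_ne_top
      · exact ENNReal.sum_ne_top.2 (fun w _ => hfin w)
      · simpa using (hdeg y).ne'), ENNReal.toReal_div,
      ENNReal.toReal_sum (fun w _ => hfin w)] at h1
    have hd : (0 : ℝ) < G.degree y := by exact_mod_cast hdeg y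
    have h2 : ∑ e : G.neighborSet y, hK (G := G) D (e : V) z
        = ∑ w ∈ G.neighborFinset y, (greenK G D w z).toReal := by
      rw [← Finset.sum_coe_sort (G.neighborFinset y)]
      refine Fintype.sum_equiv (Equiv.subtypeEquivRight (fun w => by simp)) _ _ (fun e => ?_)
      rfl
    rw [Finset.sum_sub_distrib, h2, Finset.sum_const, Finset.card_univ,
      SimpleGraph.card_neighborSet_eq_degree, nsmul_eq_mul]
    have h3 : (if y = z then (1 : ENNReal) else 0).toReal = if y = z then (1 : ℝ) else 0 := by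
      split_ifs <;> simp
    rw [h3] at h1
    simp only [ENNReal.toReal_natCast] at h1
    have h4 : hK (G := G) D y z - (if y = z then 1 else 0)
        = (∑ w ∈ G.neighborFinset y, (greenK G D w z).toReal) / G.degree y := by
      unfold hK
      linarith
    rw [h4]
    field_simp
    ring
  have hw : ∀ y : V, ∃ w : G.neighborSet y → ℝ, y ∈ D → ∀ e, w (τ y e) = w e -
      (hK (G := G) D ((τ y e : G.neighborSet y) : V) z
        - (hK (G := G) D y z - if y = z then 1 else 0)) := by
    intro y
    by_cases hy : y ∈ D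
    · obtain ⟨w, hw⟩ := exists_weight (τ y) (hτ y) (fun e => hK (G := G) D (e : V) z
        - (hK (G := G) D y z - if y = z then 1 else 0)) (hrec y hy)
      exact ⟨w, fun _ => hw⟩
    · exact ⟨fun _ => 0, fun h => absurd h hy⟩
  choose w hw using hw
  refine ⟨fun ρ => ∑ y ∈ D, w y (ρ y), ∑ y ∈ D, ∑ e, |w y e|, ?_, ?_⟩
  · intro ρ
    refine (Finset.abs_sum_le_sum_abs _ _).trans (Finset.sum_le_sum (fun y _ => ?_))
    exact Finset.single_le_sum (f := fun e => |w y e|) (fun _ _ => abs_nonneg _)
      (Finset.mem_univ _)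
  · intro x ρ hx
    simp only [step]
    rw [← Finset.add_sum_erase _ _ hx, ← Finset.add_sum_erase D (fun y => w y (ρ y)) hx,
      Function.update_self, hw x hx]
    have h1 : ∑ y ∈ D.erase x, w y (Function.update ρ x (τ x (ρ x)) y)
        = ∑ y ∈ D.erase x, w y (ρ y) := by
      refine Finset.sum_congr rfl (fun y hy => ?_)
      rw [Function.update_of_ne (Finset.ne_of_mem_erase hy)]
    rw [h1]
    ring

variable {τ}

lemma walk_pot {D : Finset V} {z : V} {W : Cfg G → ℝ}
    (hW : ∀ (x : V) (ρ : Cfg G), x ∈ D →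
        hK (G := G) D (step τ (x, ρ)).1 z + W (step τ (x, ρ)).2
          = hK (G := G) D x z + W ρ - if x = z then 1 else 0)
    (a : V) (ρ : Cfg G) (t : ℕ) (ht : ∀ s < t, (walk τ a ρ s).1 ∈ D) :
    hK (G := G) D (walk τ a ρ t).1 z + W (walk τ a ρ t).2 + (cnt τ a ρ t z : ℝ)
      = hK (G := G) D a z + W ρ := by
  induction t with
  | zero => rw [cnt_zero, walk_zero]; simp
  | succ t ih =>
    have h1 := ih (fun s hs => ht s (by omega))
    have h2 := hW (walk τ a ρ t).1 (walk τ a ρ t).2 (ht t (by omega))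
    rw [walk_succ, cnt_succ]
    rw [Prod.mk.eta] at h2
    push_cast
    linarith

lemma hK_nonneg (D : Finset V) (y z : V) : 0 ≤ hK (G := G) D y z := ENNReal.toReal_nonneg

lemma leaves_of_fin (hτ : ∀ x, SingleOrbit (τ x)) (D : Finset V)
    (hfin : ∀ x z, greenK G D x z ≠ ⊤) (hdeg : ∀ x, 0 < G.degree x) (a : V) :
    Leaves τ D a := by
  intro ρ
  by_contra hcon
  push Not at hcon
  have h1 : ∀ z : V, ∃ B : ℝ, ∀ t, (cnt τ a ρ t z : ℝ) ≤ B := by
    intro z
    obtain ⟨W, C, hC, hW⟩ := exists_pot τ hτ D z (fun x => hfin x z) hdeg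
    refine ⟨hK (G := G) D a z + 2 * C, fun t => ?_⟩
    have h2 := walk_pot hW a ρ t (fun s _ => hcon s)
    have h3 := hK_nonneg (G := G) D (walk τ a ρ t).1 z
    have h4 := (abs_le.1 (hC ρ)).2
    have h5 := (abs_le.1 (hC (walk τ a ρ t).2)).1
    linarith
  choose B hB using h1
  obtain ⟨t, ht⟩ := exists_nat_gt (∑ z ∈ D, B z)
  have h2 : (t : ℝ) = ∑ z ∈ D, (cnt τ a ρ t z : ℝ) := by
    have h3 : (Finset.range t).card = ∑ z ∈ D, cnt τ a ρ t z := by
      unfold cnt
      exact Finset.card_eq_sum_card_fiberwise (fun s _ => hcon s)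
    rw [Finset.card_range] at h3
    exact_mod_cast h3
  have h3 : ∑ z ∈ D, (cnt τ a ρ t z : ℝ) ≤ ∑ z ∈ D, B z := Finset.sum_le_sum (fun z _ => hB z t)
  linarith

lemma v1_pot {D : Finset V} {z : V} {W : Cfg G → ℝ}
    (hW : ∀ (x : V) (ρ : Cfg G), x ∈ D →
        hK (G := G) D (step τ (x, ρ)).1 z + W (step τ (x, ρ)).2
          = hK (G := G) D x z + W ρ - if x = z then 1 else 0)
    {a : V} (he : Leaves τ D a) (ρ : Cfg G) :
    (v1 τ D a ρ z : ℝ) = hK (G := G) D a z + W ρ - W (E τ D a ρ) := by
  have h1 := walk_pot hW a ρ (exitT τ D a ρ) (fun s hs => before_exit hs)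
  have h2 : hK (G := G) D (walk τ a ρ (exitT τ D a ρ)).1 z = 0 := by
    unfold hK
    rw [greenK_out D (exit_spec he ρ)]
    simp
  rw [h2] at h1
  unfold v1 E
  linarith

lemma SD_pot {D : Finset V} {z : V} {W : Cfg G → ℝ}
    (hW : ∀ (x : V) (ρ : Cfg G), x ∈ D →
        hK (G := G) D (step τ (x, ρ)).1 z + W (step τ (x, ρ)).2
          = hK (G := G) D x z + W ρ - if x = z then 1 else 0)
    {a : V} (he : Leaves τ D a) (ρ : Cfg G) (n : ℕ) :
    (SD τ D a n ρ z : ℝ) = n * hK (G := G) D a z + W ρ - W ((E τ D a)^[n] ρ) := by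
  induction n with
  | zero => rw [SD_zero]; simp
  | succ n ih =>
    rw [SD_succ]
    push_cast
    rw [ih, v1_pot hW he, Function.iterate_succ_apply']
    ring

end R766.RG
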