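import Pool.Agent.R766.RG.Max

/-!
# The oriented wired uniform spanning forest, and the almost sure bound
-/

open MeasureTheory Filter Topology

noncomputable section

open scoped Classical

namespace R766.RG

variable {V : Type*} (G : SimpleGraph V) [G.LocallyFinite]

/-- The probability that the uniform spanning forest oriented towards the complement of `Λ`
contains all the oriented edges of `B`. -/
def forestProb (Λ : Finset V) (B : Finset (V × V)) : ℝ :=
  (((forests G Λ).filter (fun f => ∀ b ∈ B, ∃ hx : b.1 ∈ Λ, (f ⟨b.1, hx⟩ : V) = b.2)).card : ℝ)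
    / ((forests G Λ).card : ℝ)

/-- `μ` is the oriented wired uniform spanning forest measure: a probability measure which,
along an exhaustion by finite sets, is the limit of the uniform measures on oriented wired
spanning forests, on all finite sets of oriented edges. -/
structure IsOWUSF (μ : Measure (Cfg G)) : Prop where
  prob : IsProbabilityMeasure μ
  lim : ∃ Λ : ℕ → Finset V, Monotone Λ ∧ (∀ x, ∃ R, x ∈ Λ R) ∧
    ∀ B : Finset (V × V),
      Tendsto (fun R => forestProb G (Λ R) B) atTop (𝓝 (μ.real {ρ | ∀ b ∈ B, (ρ b.1 : V) = b.2}))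

variable {G}

/-- The edges of a pattern. -/
def edges (D : Finset V) (p : ∀ x : {x // x ∈ D}, G.neighborSet x.1) : Finset (V × V) :=
  Finset.univ.image (fun x : {x // x ∈ D} => (x.1, (p x : V)))

lemma set_edges (D : Finset V) (p : ∀ x : {x // x ∈ D}, G.neighborSet x.1) :
    {ρ : Cfg G | ∀ b ∈ edges D p, (ρ b.1 : V) = b.2} = {ρ | res D ρ = p} := by
  ext ρ
  simp only [Set.mem_ofPred_eq, edges, Finset.mem_image, Finset.mem_univ, true_and]
  constructor
  · intro h
    funext x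
    exact Subtype.ext (h (x.1, (p x : V)) ⟨x, rfl⟩)
  · rintro rfl b ⟨x, rfl⟩
    rfl

lemma filter_edges {D Λ : Finset V} (hD : D ⊆ Λ) (ρ₀ : Cfg G)
    (p : ∀ x : {x // x ∈ D}, G.neighborSet x.1) :
    (forests G Λ).filter (fun f => ∀ b ∈ edges D p, ∃ hx : b.1 ∈ Λ, (f ⟨b.1, hx⟩ : V) = b.2)
      = (forests G Λ).filter (fun f => res D (ext Λ ρ₀ f) = p) := by
  refine Finset.filter_congr (fun f _ => ?_)
  simp only [edges, Finset.mem_image, Finset.mem_univ, true_and]
  constructor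
  · intro h
    funext x
    obtain ⟨hx, h1⟩ := h (x.1, (p x : V)) ⟨x, rfl⟩
    apply Subtype.ext
    refine Eq.trans ?_ h1
    simp [res, ext, hD x.2]
  · rintro rfl b ⟨x, rfl⟩
    refine ⟨hD x.2, ?_⟩
    simp [res, ext, hD x.2]

lemma measurable_res (D : Finset V) (p : ∀ x : {x // x ∈ D}, G.neighborSet x.1) :
    MeasurableSet {ρ : Cfg G | res D ρ = p} := by
  have : {ρ : Cfg G | res D ρ = p} = ⋂ x : {x // x ∈ D}, (fun ρ : Cfg G => ρ x.1) ⁻¹' {p x} := by
    ext ρ
    simp only [Set.mem_ofPred_eq, Set.mem_iInter, Set.mem_preimage, Set.mem_singleton_iff]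
    constructor
    · rintro rfl x; rfl
    · intro h; funext x; exact h x
  rw [this]
  refine MeasurableSet.iInter (fun x => ?_)
  exact measurable_pi_apply x.1 trivial

/-- A set of patterns. -/
lemma sum_forestProb {D Λ : Finset V} (hD : D ⊆ Λ) (ρ₀ : Cfg G)
    (P : Finset (∀ x : {x // x ∈ D}, G.neighborSet x.1)) :
    ∑ p ∈ P, forestProb G Λ (edges D p)
      = (((forests G Λ).filter (fun f => res D (ext Λ ρ₀ f) ∈ P)).card : ℝ)
        / ((forests G Λ).card : ℝ) := by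
  unfold forestProb
  rw [← Finset.sum_div]
  congr 1
  rw [Finset.card_eq_sum_card_fiberwise (f := fun f => res D (ext Λ ρ₀ f)) (t := P)
    (fun f hf => by
      have : f ∈ (forests G Λ).filter (fun f => res D (ext Λ ρ₀ f) ∈ P) := hf
      exact (Finset.mem_filter.1 this).2)]
  push_cast
  refine Finset.sum_congr rfl (fun p hp => ?_)
  rw [filter_edges hD ρ₀]
  congr 2
  ext f
  simp only [Finset.mem_filter]
  constructor
  · rintro ⟨h1, h2⟩
    exact ⟨⟨h1, by rw [h2]; exact hp⟩, h2⟩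
  · rintro ⟨⟨h1, _⟩, h2⟩
    exact ⟨h1, h2⟩

lemma measurable_local {D : Finset V} (A : Set (Cfg G))
    (hA : ∀ ρ ρ' : Cfg G, (∀ x ∈ D, ρ x = ρ' x) → (ρ ∈ A → ρ' ∈ A)) (ρ₀ : Cfg G) :
    A = ⋃ p ∈ Finset.univ.filter (fun p => ext D ρ₀ p ∈ A), {ρ : Cfg G | res D ρ = p} := by
  ext ρ
  simp only [Set.mem_iUnion, Set.mem_ofPred_eq, Finset.mem_filter, Finset.mem_univ, true_and,
    exists_prop, exists_eq_right']
  constructor
  · intro h
    refine hA ρ _ (fun x hx => ?_) h
    simp [ext, res, hx]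
  · intro h
    refine hA _ ρ (fun x hx => ?_) h
    simp [ext, res, hx]

/-- Transfer of local events from finite volume to the limit. -/
lemma transfer {μ : Measure (Cfg G)} [IsProbabilityMeasure μ] {Λ : ℕ → Finset V}
    (hmono : Monotone Λ)
    (hlim : ∀ B : Finset (V × V),
      Tendsto (fun R => forestProb G (Λ R) B) atTop (𝓝 (μ.real {ρ | ∀ b ∈ B, (ρ b.1 : V) = b.2})))
    (ρ₀ : Cfg G) (r : ℕ) (A : Set (Cfg G))
    (hA : ∀ ρ ρ' : Cfg G, (∀ x ∈ Λ r, ρ x = ρ' x) → (ρ ∈ A → ρ' ∈ A))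
    {δ : ℝ} (r' : ℕ) (hb : ∀ R, r' ≤ R →
      (((forests G (Λ R)).filter (fun f => ext (Λ R) ρ₀ f ∈ A)).card : ℝ)
        ≤ δ * (forests G (Λ R)).card) : μ.real A ≤ δ ∧ MeasurableSet A := by
  set P := Finset.univ.filter (fun p => ext (Λ r) ρ₀ p ∈ A) with hP
  have hAe := measurable_local A hA ρ₀
  rw [← hP] at hAe
  have hmeas : MeasurableSet A := by
    rw [hAe]
    exact Finset.measurableSet_biUnion _ (fun p _ => measurable_res _ p)
  refine ⟨?_, hmeas⟩
  have hsum : μ.real A = ∑ p ∈ P, μ.real {ρ : Cfg G | res (Λ r) ρ = p} := by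
    conv_lhs => rw [hAe]
    refine measureReal_biUnion_finset ?_ (fun p _ => measurable_res _ p)
    intro p _ q _ hpq
    rw [Function.onFun, Set.disjoint_left]
    intro ρ h1 h2
    exact hpq (h1.symm.trans h2)
  have hall : ∑ p : (∀ x : {x // x ∈ Λ r}, G.neighborSet x.1),
      μ.real {ρ : Cfg G | res (Λ r) ρ = p} = 1 := by
    have h1 : μ.real (Set.univ : Set (Cfg G)) = 1 := by simp
    rw [← h1]
    have h2 : (Set.univ : Set (Cfg G)) = ⋃ p ∈ (Finset.univ :
        Finset (∀ x : {x // x ∈ Λ r}, G.neighborSet x.1)), {ρ : Cfg G | res (Λ r) ρ = p} := by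
      ext ρ
      simp
    rw [h2]
    symm
    refine measureReal_biUnion_finset ?_ (fun p _ => measurable_res _ p)
    intro p _ q _ hpq
    rw [Function.onFun, Set.disjoint_left]
    intro ρ h1 h2
    exact hpq (h1.symm.trans h2)
  have hl : ∀ Q : Finset (∀ x : {x // x ∈ Λ r}, G.neighborSet x.1),
      Tendsto (fun R => ∑ p ∈ Q, forestProb G (Λ R) (edges (Λ r) p)) atTop
        (𝓝 (∑ p ∈ Q, μ.real {ρ : Cfg G | res (Λ r) ρ = p})) := by
    intro Q
    refine tendsto_finsetSum _ (fun p _ => ?_)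
    have := hlim (edges (Λ r) p)
    rwa [set_edges] at this
  have h1 := hl Finset.univ
  rw [hall] at h1
  have hne : ∀ᶠ R in atTop, 0 < (forests G (Λ R)).card := by
    filter_upwards [h1.eventually (lt_mem_nhds (show (0 : ℝ) < 1 by norm_num)),
      eventually_ge_atTop r] with R hR hRr
    rw [sum_forestProb (hmono hRr) ρ₀] at hR
    by_contra hcon
    have h0 : (forests G (Λ R)).card = 0 := by omega
    rw [h0] at hR
    simp at hR
  rw [hsum]
  refine le_of_tendsto (hl P) ?_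
  filter_upwards [hne, eventually_ge_atTop r, eventually_ge_atTop r'] with R hR hRr hRr'
  rw [sum_forestProb (hmono hRr) ρ₀, div_le_iff₀ (by exact_mod_cast hR)]
  refine le_trans ?_ (hb R hRr')
  have hsub : (forests G (Λ R)).filter (fun f => res (Λ r) (ext (Λ R) ρ₀ f) ∈ P)
      ⊆ (forests G (Λ R)).filter (fun f => ext (Λ R) ρ₀ f ∈ A) := by
    intro f hf
    rw [Finset.mem_filter] at hf ⊢
    refine ⟨hf.1, ?_⟩
    have h2 := hf.2
    rw [hP, Finset.mem_filter] at h2
    refine hA _ _ (fun x hx => ?_) h2.2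
    simp [ext, res, hx]
  exact_mod_cast Finset.card_le_card hsub

variable {τ : ∀ x, Equiv.Perm (G.neighborSet x)}

/-- The almost sure bound in all finite volumes. -/
lemma ae_bound (hτ : ∀ x, SingleOrbit (τ x)) (hdeg : ∀ x, 0 < G.degree x)
    (hfin : ∀ x z, green G x z ≠ ⊤) (a : V) (ρ₀ : Cfg G) {μ : Measure (Cfg G)}
    [IsProbabilityMeasure μ] {Λ : ℕ → Finset V}
    (hmono : Monotone Λ) (hex : ∀ x, ∃ R, x ∈ Λ R) (haΛ : ∀ R, a ∈ Λ R)
    (hlim : ∀ B : Finset (V × V),
      Tendsto (fun R => forestProb G (Λ R) B) atTop (𝓝 (μ.real {ρ | ∀ b ∈ B, (ρ b.1 : V) = b.2})))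
    (x : V) {ε : ℝ} (hε : 0 < ε) :
    ∀ᵐ ρ ∂μ, ∃ b : ℕ, ∀ n R : ℕ,
      (SD τ (Λ R) a n ρ x : ℝ) ≤ ((n : ℝ) + b) * ((green G a x).toReal + ε) := by
  have hfinK : ∀ D : Finset V, ∀ x z, greenK G D x z ≠ ⊤ := fun D x z =>
    ne_top_of_le_ne_top (hfin x z) (greenK_le D x z)
  have he : ∀ R, Leaves τ (Λ R) a := fun R => leaves_of_fin hτ _ (hfinK _) hdeg a
  rw [ae_iff]
  refine le_antisymm (le_of_forall_pos_le_add (fun δ' hδ' => ?_)) zero_le
  rw [zero_add]
  rcases eq_or_ne δ' ⊤ with htop | htop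
  · rw [htop]; exact le_top
  have hδ : 0 < δ'.toReal := ENNReal.toReal_pos hδ'.ne' htop
  obtain ⟨b, r, hbr⟩ := finite_bound (τ := τ) hτ hdeg hfin a ρ₀ Λ hmono hex haΛ x hε hδ
  set A : ℕ → Set (Cfg G) := fun j => {ρ | ∃ n ≤ j, ((n : ℝ) + b) * ((green G a x).toReal + ε)
    < SD τ (Λ j) a n ρ x} with hAdef
  have hA : ∀ j, μ.real (A j) ≤ δ'.toReal ∧ MeasurableSet (A j) := by
    intro j
    refine transfer hmono hlim ρ₀ j (A j) ?_ (max r j) ?_
    · rintro ρ ρ' hag ⟨n, hn, h1⟩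
      refine ⟨n, hn, ?_⟩
      rw [← SD_congr (he j) hag n x]
      exact h1
    · intro R hR
      refine le_trans ?_ (hbr R (le_trans (le_max_left _ _) hR) j)
      refine Nat.cast_le.2 (Finset.card_le_card ?_)
      intro f hf
      have hf' : f ∈ forests G (Λ R) ∧ ext (Λ R) ρ₀ f ∈ A j := by
        simpa only [Finset.mem_filter] using hf
      obtain ⟨hf1, n, hn, hf2⟩ := hf'
      simp only [Finset.mem_filter]
      refine ⟨hf1, n, hn, lt_of_lt_of_le hf2 ?_⟩
      exact_mod_cast SD_mono (he j) (he R) (haΛ j) (hmono (le_trans (le_max_right _ _) hR)) n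
        (ext (Λ R) ρ₀ f) x
  have hAmono : Monotone A := by
    intro i j hij ρ hρ
    obtain ⟨n, hn, h1⟩ := hρ
    refine ⟨n, hn.trans hij, lt_of_lt_of_le h1 ?_⟩
    exact_mod_cast SD_mono (he i) (he j) (haΛ i) (hmono hij) n ρ x
  have hU : μ (⋃ j, A j) ≤ δ' := by
    rw [hAmono.measure_iUnion]
    refine iSup_le (fun j => ?_)
    rw [← ENNReal.ofReal_toReal htop, ← ENNReal.ofReal_toReal (measure_ne_top μ (A j))]
    exact ENNReal.ofReal_le_ofReal (hA j).1
  refine (measure_mono ?_).trans hU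
  intro ρ hρ
  simp only [Set.mem_ofPred_eq, not_exists, not_forall, not_le] at hρ
  obtain ⟨n, R, h1⟩ := hρ b
  rw [Set.mem_iUnion]
  refine ⟨max n R, n, le_max_left _ _, lt_of_lt_of_le h1 ?_⟩
  exact_mod_cast SD_mono (he R) (he _) (haΛ R) (hmono (le_max_right n R)) n ρ x

/-- The almost sure Schramm bound. -/
theorem schramm (hconn : G.Connected) [Infinite V] (htr : ∃ o, green G o o ≠ ⊤)
    (hτ : ∀ x, SingleOrbit (τ x)) (a : V) {μ : Measure (Cfg G)} (hμ : IsOWUSF G μ) :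
    ∀ᵐ ρ ∂μ, ∀ x, limsup (fun n : ℕ => visits τ a n ρ x / (n : ENNReal)) atTop ≤ green G a x := by
  obtain ⟨o, ho⟩ := htr
  have hfin : ∀ x z, green G x z ≠ ⊤ := green_ne_top hconn ho
  have hdeg : ∀ x, 0 < G.degree x := fun x => hconn.preconnected.degree_pos_of_nontrivial x
  have hnb : ∀ x, Nonempty (G.neighborSet x) := by
    intro x
    obtain ⟨y, hy⟩ := (G.degree_pos_iff_exists_adj x).1 (hdeg x)
    exact ⟨⟨y, hy⟩⟩
  have ρ₀ : Cfg G := fun x => (hnb x).some
  have := hμ.prob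
  obtain ⟨Λ₀, hmono₀, hex₀, hlim₀⟩ := hμ.lim
  obtain ⟨R₀, hR₀⟩ := hex₀ a
  set Λ : ℕ → Finset V := fun R => Λ₀ (R + R₀) with hΛ
  have hmono : Monotone Λ := fun i j hij => hmono₀ (by omega)
  have hex : ∀ x, ∃ R, x ∈ Λ R := fun x => by
    obtain ⟨R, hR⟩ := hex₀ x
    exact ⟨R, hmono₀ (by omega) hR⟩
  have haΛ : ∀ R, a ∈ Λ R := fun R => hmono₀ (by omega) hR₀
  have hlim : ∀ B : Finset (V × V), Tendsto (fun R => forestProb G (Λ R) B) atTop
      (𝓝 (μ.real {ρ | ∀ b ∈ B, (ρ b.1 : V) = b.2})) := fun B =>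
    (tendsto_add_atTop_iff_nat R₀).2 (hlim₀ B)
  have hcount : Countable V := by
    have h1 : (⋃ R, (Λ R : Set V)) = Set.univ := by
      ext x
      simp only [Set.mem_iUnion, Set.mem_univ, iff_true]
      exact hex x
    have h2 : (⋃ R, (Λ R : Set V)).Countable :=
      Set.countable_iUnion (fun R => (Λ R).countable_toSet)
    rw [h1] at h2
    exact Set.countable_univ_iff.1 h2
  have hfinK : ∀ D : Finset V, ∀ x z, greenK G D x z ≠ ⊤ := fun D x z =>
    ne_top_of_le_ne_top (hfin x z) (greenK_le D x z)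
  have he : ∀ R, Leaves τ (Λ R) a := fun R => leaves_of_fin hτ _ (hfinK _) hdeg a
  have hae : ∀ᵐ ρ ∂μ, ∀ (x : V) (k : ℕ), ∃ b : ℕ, ∀ n R : ℕ,
      (SD τ (Λ R) a n ρ x : ℝ) ≤ ((n : ℝ) + b) * ((green G a x).toReal + 1 / ((k : ℝ) + 1)) := by
    rw [ae_all_iff]
    intro x
    rw [ae_all_iff]
    intro k
    exact ae_bound hτ hdeg hfin a ρ₀ hmono hex haΛ hlim x (by positivity)
  filter_upwards [hae] with ρ hρ x
  have hk : ∀ k : ℕ, limsup (fun n : ℕ => visits τ a n ρ x / (n : ENNReal)) atTop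
      ≤ ENNReal.ofReal ((green G a x).toReal + 2 / ((k : ℝ) + 1)) := by
    intro k
    choose b hb using fun z => hρ z k
    set ε : ℝ := 1 / ((k : ℝ) + 1) with hε
    have hε0 : 0 < ε := by positivity
    have hvis : ∀ n : ℕ, visits τ a n ρ x
        ≤ ENNReal.ofReal (((n : ℝ) + b x) * ((green G a x).toReal + ε)) := by
      intro n
      have h1 := visits_le_of_SD (τ := τ) Λ hmono hex he (n := n) (ρ := ρ)
        (M := fun z => ⌊((n : ℝ) + b z) * ((green G a z).toReal + ε)⌋₊)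
        (fun R z => Nat.le_floor (hb z n R)) x
      refine h1.trans ?_
      rw [← ENNReal.ofReal_natCast]
      apply ENNReal.ofReal_le_ofReal
      exact Nat.floor_le (by
        have : (0 : ℝ) ≤ (green G a x).toReal := ENNReal.toReal_nonneg
        positivity)
    apply Filter.limsup_le_of_le
    · isBoundedDefault
    obtain ⟨n₀, hn₀⟩ := exists_nat_gt ((b x : ℝ) * ((green G a x).toReal + ε) / ε)
    filter_upwards [eventually_ge_atTop (n₀ + 1)] with n hn
    have hn0 : (0 : ℝ) < n := by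
      have : 0 < n := by omega
      exact_mod_cast this
    apply ENNReal.div_le_of_le_mul
    refine (hvis n).trans ?_
    rw [← ENNReal.ofReal_natCast, ← ENNReal.ofReal_mul (by
      have : (0 : ℝ) ≤ (green G a x).toReal := ENNReal.toReal_nonneg
      positivity)]
    apply ENNReal.ofReal_le_ofReal
    have h2 : (b x : ℝ) * ((green G a x).toReal + ε) ≤ n * ε := by
      rw [div_lt_iff₀ hε0] at hn₀
      have h3 : (n₀ : ℝ) ≤ n := by exact_mod_cast (by omega : n₀ ≤ n)
      nlinarith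
    have h4 : (2 : ℝ) / ((k : ℝ) + 1) = 2 * ε := by rw [hε]; ring
    rw [h4]
    nlinarith
  have hlim2 : Tendsto (fun k : ℕ => ENNReal.ofReal ((green G a x).toReal + 2 / ((k : ℝ) + 1)))
      atTop (𝓝 (ENNReal.ofReal ((green G a x).toReal + 0))) := by
    apply ENNReal.tendsto_ofReal
    refine tendsto_const_nhds.add ?_
    have h5 : Tendsto (fun k : ℕ => 2 * (1 / ((k : ℝ) + 1))) atTop (𝓝 (2 * 0)) :=
      tendsto_one_div_add_atTop_nhds_zero_nat.const_mul 2
    rw [mul_zero] at h5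
    refine h5.congr (fun k => ?_)
    ring
  have h6 := ge_of_tendsto' hlim2 hk
  rwa [add_zero, ENNReal.ofReal_toReal (hfin a x)] at h6

end R766.RG
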