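import Pool.Agent.R766.RG.Bij

/-!
# A maximal inequality, and its application to stopped rotor walks
-/

open MeasureTheory Filter Topology

noncomputable section

open scoped Classical

namespace R766.RG

/-! ### Finite dynamical systems -/

section dyn

variable {α : Type*} (Ω : Finset α) (T : α → α) (hT : ∀ ω ∈ Ω, T ω ∈ Ω)
  (hinj : ∀ ω ∈ Ω, ∀ ω' ∈ Ω, T ω = T ω' → ω = ω')

include hT hinj in
lemma sum_comp (g : α → ℝ) : ∑ ω ∈ Ω, g (T ω) = ∑ ω ∈ Ω, g ω := by
  have himg : Ω.image T = Ω := by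
    apply Finset.eq_of_subset_of_card_le
    · intro y hy
      obtain ⟨x, hx, rfl⟩ := Finset.mem_image.1 hy
      exact hT x hx
    · rw [Finset.card_image_of_injOn (fun x hx y hy h => hinj x hx y hy h)]
  conv_rhs => rw [← himg, Finset.sum_image (fun x hx y hy h => hinj x hx y hy h)]

include hT in
lemma iter_mem (n : ℕ) : ∀ ω ∈ Ω, T^[n] ω ∈ Ω := by
  induction n with
  | zero => exact fun ω h => h
  | succ n ih =>
    intro ω h
    rw [Function.iterate_succ_apply']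
    exact hT _ (ih ω h)

include hT hinj in
lemma iter_inj (n : ℕ) : ∀ ω ∈ Ω, ∀ ω' ∈ Ω, T^[n] ω = T^[n] ω' → ω = ω' := by
  induction n with
  | zero => exact fun ω _ ω' _ h => h
  | succ n ih =>
    intro ω h ω' h' he
    rw [Function.iterate_succ_apply', Function.iterate_succ_apply'] at he
    exact ih ω h ω' h' (hinj _ (iter_mem Ω T hT n ω h) _ (iter_mem Ω T hT n ω' h') he)

/-- The maximal function. -/
def mx (T : α → α) (g : α → ℝ) : ℕ → α → ℝ
  | 0, _ => 0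
  | N + 1, ω => max 0 (g ω + mx T g N (T ω))

lemma mx_nonneg (g : α → ℝ) (N : ℕ) (ω : α) : 0 ≤ mx T g N ω := by
  cases N with
  | zero => exact le_rfl
  | succ N => exact le_max_left _ _

lemma mx_mono (g : α → ℝ) (N : ℕ) : ∀ ω, mx T g N ω ≤ mx T g (N + 1) ω := by
  induction N with
  | zero => intro ω; exact mx_nonneg T g 1 ω
  | succ N ih =>
    intro ω
    simp only [mx]
    exact max_le_max le_rfl (by have := ih (T ω); simp only [mx] at this; linarith)

lemma sum_le_mx (g : α → ℝ) (N : ℕ) : ∀ m ≤ N, ∀ ω,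
    ∑ i ∈ Finset.range m, g (T^[i] ω) ≤ mx T g N ω := by
  induction N with
  | zero =>
    intro m hm ω
    have : m = 0 := by omega
    subst this
    simp [mx]
  | succ N ih =>
    intro m hm ω
    cases m with
    | zero => simpa using mx_nonneg T g (N + 1) ω
    | succ m =>
      rw [Finset.sum_range_succ']
      simp only [Function.iterate_succ_apply, Function.iterate_zero, id_eq]
      have h1 := ih m (by omega) (T ω)
      simp only [mx]
      refine le_trans ?_ (le_max_right _ _)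
      linarith

lemma mx_pos_le (g : α → ℝ) (N : ℕ) (ω : α) (h : 0 < mx T g N ω) :
    mx T g N ω ≤ g ω + mx T g N (T ω) := by
  cases N with
  | zero => exact absurd h (lt_irrefl _)
  | succ N =>
    have h1 : mx T g (N + 1) ω = g ω + mx T g N (T ω) := by
      simp only [mx] at h ⊢
      rcases le_total 0 (g ω + mx T g N (T ω)) with h2 | h2
      · rw [max_eq_right h2]
      · rw [max_eq_left h2] at h; exact absurd h (lt_irrefl _)
    rw [h1]
    have := mx_mono T g N (T ω)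
    linarith

include hT hinj in
lemma maximal (f : α → ℝ) (hf : ∀ ω ∈ Ω, 0 ≤ f ω) (lam : ℝ) (hlam : 0 ≤ lam) (M : ℕ) :
    lam * ((Ω.filter (fun ω => ∃ m ≤ M, lam * m < ∑ i ∈ Finset.range m, f (T^[i] ω))).card : ℝ)
      ≤ ∑ ω ∈ Ω, f ω := by
  set g : α → ℝ := fun ω => f ω - lam with hg
  set A := Ω.filter (fun ω => 0 < mx T g M ω) with hA
  have hsub : Ω.filter (fun ω => ∃ m ≤ M, lam * m < ∑ i ∈ Finset.range m, f (T^[i] ω)) ⊆ A := by
    intro ω hω
    rw [Finset.mem_filter] at hω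
    obtain ⟨h1, m, hm, h2⟩ := hω
    rw [hA, Finset.mem_filter]
    refine ⟨h1, lt_of_lt_of_le ?_ (sum_le_mx T g M m hm ω)⟩
    rw [hg]
    simp only [Finset.sum_sub_distrib, Finset.sum_const, Finset.card_range, nsmul_eq_mul]
    linarith
  have h1 : ∑ ω ∈ A, (mx T g M ω - mx T g M (T ω)) ≤ ∑ ω ∈ A, g ω := by
    refine Finset.sum_le_sum (fun ω hω => ?_)
    rw [hA, Finset.mem_filter] at hω
    have := mx_pos_le T g M ω hω.2
    linarith
  have h2 : ∑ ω ∈ Ω, (mx T g M ω - mx T g M (T ω))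
      ≤ ∑ ω ∈ A, (mx T g M ω - mx T g M (T ω)) := by
    rw [← Finset.sum_filter_add_sum_filter_not Ω (fun ω => 0 < mx T g M ω)]
    have h3 : ∑ ω ∈ Ω.filter (fun ω => ¬ 0 < mx T g M ω), (mx T g M ω - mx T g M (T ω)) ≤ 0 := by
      refine Finset.sum_nonpos (fun ω hω => ?_)
      rw [Finset.mem_filter] at hω
      have := mx_nonneg T g M (T ω)
      linarith [not_lt.1 hω.2]
    linarith
  have h3 : ∑ ω ∈ Ω, (mx T g M ω - mx T g M (T ω)) = 0 := by
    rw [Finset.sum_sub_distrib, sum_comp Ω T hT hinj (mx T g M), sub_self]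
  have h4 : 0 ≤ ∑ ω ∈ A, f ω - lam * (A.card : ℝ) := by
    have h5 : ∑ ω ∈ A, g ω = ∑ ω ∈ A, f ω - lam * (A.card : ℝ) := by
      rw [hg, Finset.sum_sub_distrib, Finset.sum_const, nsmul_eq_mul]
      ring
    linarith
  have h6 : ∑ ω ∈ A, f ω ≤ ∑ ω ∈ Ω, f ω :=
    Finset.sum_le_sum_of_subset_of_nonneg (Finset.filter_subset _ _) (fun ω hω _ => hf ω hω)
  have h7 : lam * ((Ω.filter (fun ω => ∃ m ≤ M,
      lam * m < ∑ i ∈ Finset.range m, f (T^[i] ω))).card : ℝ) ≤ lam * (A.card : ℝ) := by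
    apply mul_le_mul_of_nonneg_left _ hlam
    exact_mod_cast Finset.card_le_card hsub
  linarith

end dyn

/-! ### Stopped rotor walks -/

variable {V : Type*} {G : SimpleGraph V} [G.LocallyFinite]
  {τ : ∀ x, Equiv.Perm (G.neighborSet x)}

lemma SD_block (D : Finset V) (a : V) (b : ℕ) (ρ₀ : Cfg G)
    (f : ∀ x : {x // x ∈ D}, G.neighborSet x.1) (x : V) (m : ℕ) :
    SD τ D a (b * m) (ext D ρ₀ f) x
      = ∑ i ∈ Finset.range m, SD τ D a b (ext D ρ₀ (((T τ D a ρ₀)^[b])^[i] f)) x := by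
  induction m with
  | zero => simp [SD_zero]
  | succ m ih =>
    rw [Finset.sum_range_succ, mul_add, mul_one, SD_add, ih]
    congr 2
    rw [← Function.iterate_mul, ext_T_iter]

lemma sum_SD {D : Finset V} {a : V} (hτ : ∀ x, SingleOrbit (τ x))
    (hfin : ∀ x z, greenK G D x z ≠ ⊤) (hdeg : ∀ x, 0 < G.degree x) (ρ₀ : Cfg G) (n : ℕ) (z : V) :
    ∑ f ∈ forests G D, (SD τ D a n (ext D ρ₀ f) z : ℝ)
      = (forests G D).card * (n * hK (G := G) D a z) := by
  obtain ⟨W, C, hC, hW⟩ := exists_pot τ hτ D z (fun x => hfin x z) hdeg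
  have he : Leaves τ D a := leaves_of_fin hτ D hfin hdeg a
  have h1 : ∀ f, (SD τ D a n (ext D ρ₀ f) z : ℝ) = n * hK (G := G) D a z
      + (W (ext D ρ₀ f) - W (ext D ρ₀ ((T τ D a ρ₀)^[n] f))) := by
    intro f
    rw [SD_pot hW he, ext_T_iter]
    ring
  have h2 : ∑ f ∈ forests G D, W (ext D ρ₀ ((T τ D a ρ₀)^[n] f))
      = ∑ f ∈ forests G D, W (ext D ρ₀ f) :=
    sum_comp (forests G D) ((T τ D a ρ₀)^[n])
      (iter_mem _ _ (fun f hf => T_mem he ρ₀ hf) n)
      (iter_inj _ _ (fun f hf => T_mem he ρ₀ hf) (fun f hf g hg h => T_inj he ρ₀ hf hg h) n)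
      (fun f => W (ext D ρ₀ f))
  simp only [h1]
  rw [Finset.sum_add_distrib, Finset.sum_sub_distrib, h2, Finset.sum_const, nsmul_eq_mul]
  ring

lemma SD_lower {D : Finset V} {a : V} (hτ : ∀ x, SingleOrbit (τ x))
    (hfin : ∀ x z, greenK G D x z ≠ ⊤) (hdeg : ∀ x, 0 < G.degree x) (z : V) :
    ∃ C : ℝ, 0 ≤ C ∧ ∀ (n : ℕ) (ρ : Cfg G), n * hK (G := G) D a z - C ≤ SD τ D a n ρ z := by
  obtain ⟨W, C, hC, hW⟩ := exists_pot τ hτ D z (fun x => hfin x z) hdeg
  have he : Leaves τ D a := leaves_of_fin hτ D hfin hdeg a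
  rcases isEmpty_or_nonempty (Cfg G) with hemp | ⟨⟨ρ'⟩⟩
  · exact ⟨0, le_rfl, fun n ρ => hemp.elim ρ⟩
  refine ⟨2 * C, by linarith [abs_nonneg (W ρ'), hC ρ'], fun n ρ => ?_⟩
  rw [SD_pot hW he]
  have h1 := (abs_le.1 (hC ρ)).1
  have h2 := (abs_le.1 (hC ((E τ D a)^[n] ρ))).2
  linarith

/-- The main estimate in finite volume. -/
lemma finite_bound (hτ : ∀ x, SingleOrbit (τ x)) (hdeg : ∀ x, 0 < G.degree x)
    (hfin : ∀ x z, green G x z ≠ ⊤) (a : V) (ρ₀ : Cfg G) (Λ : ℕ → Finset V)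
    (hmono : Monotone Λ) (hex : ∀ x, ∃ R, x ∈ Λ R) (haΛ : ∀ R, a ∈ Λ R) (x : V)
    {ε δ : ℝ} (hε : 0 < ε) (hδ : 0 < δ) :
    ∃ b r : ℕ, ∀ R, r ≤ R → ∀ N : ℕ,
      (((forests G (Λ R)).filter (fun f => ∃ n ≤ N, ((n : ℝ) + b) * ((green G a x).toReal + ε)
        < SD τ (Λ R) a n (ext (Λ R) ρ₀ f) x)).card : ℝ) ≤ δ * (forests G (Λ R)).card := by
  set g : ℝ := (green G a x).toReal with hg
  have hfinK : ∀ D : Finset V, ∀ x z, greenK G D x z ≠ ⊤ := fun D x z =>
    ne_top_of_le_ne_top (hfin x z) (greenK_le D x z)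
  have hle : ∀ D, hK (G := G) D a x ≤ g := fun D =>
    ENNReal.toReal_mono (hfin a x) (greenK_le D a x)
  have hg0 : 0 ≤ g := ENNReal.toReal_nonneg
  obtain ⟨r, hr⟩ : ∃ r, g - δ * ε / 2 ≤ hK (G := G) (Λ r) a x := by
    by_cases hg1 : g - δ * ε / 2 < 0
    · exact ⟨0, hg1.le.trans (hK_nonneg _ _ _)⟩
    · push Not at hg1
      have h1 : ENNReal.ofReal (g - δ * ε / 2) < green G a x := by
        rw [ENNReal.ofReal_lt_iff_lt_toReal hg1 (hfin a x)]
        have : 0 < δ * ε := mul_pos hδ hε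
        linarith
      obtain ⟨r, hr⟩ := (green_lt_eventually Λ hmono hex a x h1).exists
      refine ⟨r, ?_⟩
      rw [ENNReal.ofReal_lt_iff_lt_toReal hg1 (hfinK _ a x)] at hr
      exact hr.le
  obtain ⟨C, hC0, hC⟩ := SD_lower (D := Λ r) (a := a) hτ (hfinK _) hdeg x
  obtain ⟨b, hb⟩ := exists_nat_gt (2 * C / (δ * ε))
  have hδε : 0 < δ * ε := mul_pos hδ hε
  have hb0 : 0 < b := by
    have h1 : (0 : ℝ) < b := lt_of_le_of_lt (by positivity) hb
    exact_mod_cast h1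
  have hbR : (0 : ℝ) < b := by exact_mod_cast hb0
  have hCb : C ≤ b * (δ * ε / 2) := by
    rw [div_lt_iff₀ hδε] at hb
    linarith
  refine ⟨b, r, fun R hR N => ?_⟩
  have he : Leaves τ (Λ R) a := leaves_of_fin hτ _ (hfinK _) hdeg a
  have her : Leaves τ (Λ r) a := leaves_of_fin hτ _ (hfinK _) hdeg a
  set gr := hK (G := G) (Λ r) a x with hgr
  set gR := hK (G := G) (Λ R) a x with hgR
  set f0 : (∀ x : {x // x ∈ Λ R}, G.neighborSet x.1) → ℝ :=
    fun f => (SD τ (Λ R) a b (ext (Λ R) ρ₀ f) x : ℝ) - (b * gr - C) with hf0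
  have hf0n : ∀ f ∈ forests G (Λ R), 0 ≤ f0 f := by
    intro f _
    have h1 := hC b (ext (Λ R) ρ₀ f)
    have h2 : (SD τ (Λ r) a b (ext (Λ R) ρ₀ f) x : ℝ) ≤ SD τ (Λ R) a b (ext (Λ R) ρ₀ f) x := by
      exact_mod_cast SD_mono her he (haΛ r) (hmono hR) b (ext (Λ R) ρ₀ f) x
    simp only [hf0]
    linarith
  have hmaps := fun f (hf : f ∈ forests G (Λ R)) => T_mem he ρ₀ hf
  have hinjs := fun f (hf : f ∈ forests G (Λ R)) g (hg : g ∈ forests G (Λ R)) h =>
    T_inj he ρ₀ hf hg h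
  have hmax := maximal (forests G (Λ R)) ((T τ (Λ R) a ρ₀)^[b])
    (iter_mem _ _ hmaps b) (iter_inj _ _ hmaps hinjs b) f0 hf0n (b * ε) (by positivity) (N + 1)
  have hsum : ∑ f ∈ forests G (Λ R), f0 f
      = (forests G (Λ R)).card * (b * gR - (b * gr - C)) := by
    simp only [hf0]
    rw [Finset.sum_sub_distrib, sum_SD hτ (hfinK _) hdeg, Finset.sum_const, nsmul_eq_mul]
    ring
  have hsub : (forests G (Λ R)).filter (fun f => ∃ n ≤ N, ((n : ℝ) + b) * (g + ε)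
        < SD τ (Λ R) a n (ext (Λ R) ρ₀ f) x) ⊆
      (forests G (Λ R)).filter (fun ω => ∃ m ≤ N + 1, b * ε * m <
        ∑ i ∈ Finset.range m, f0 (((T τ (Λ R) a ρ₀)^[b])^[i] ω)) := by
    intro f hf
    rw [Finset.mem_filter] at hf ⊢
    obtain ⟨hf1, n, hn, hf2⟩ := hf
    refine ⟨hf1, n / b + 1, by have := Nat.div_le_self n b; omega, ?_⟩
    set m := n / b + 1 with hm
    have h1 : n ≤ b * m := by
      have := Nat.div_add_mod n b
      have h2 := Nat.mod_lt n hb0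
      rw [hm, mul_add, mul_one]
      omega
    have h2 : b * m ≤ n + b := by
      have := Nat.div_mul_le_self n b
      rw [hm, mul_add, mul_one, mul_comm]
      omega
    have h3 : (SD τ (Λ R) a n (ext (Λ R) ρ₀ f) x : ℝ) ≤ SD τ (Λ R) a (b * m) (ext (Λ R) ρ₀ f) x := by
      exact_mod_cast SD_mono_n (Λ R) a h1 (ext (Λ R) ρ₀ f) x
    have h4 : (SD τ (Λ R) a (b * m) (ext (Λ R) ρ₀ f) x : ℝ)
        = ∑ i ∈ Finset.range m, f0 (((T τ (Λ R) a ρ₀)^[b])^[i] f) + m * (b * gr - C) := by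
      rw [SD_block]
      simp only [hf0]
      rw [Finset.sum_sub_distrib, Finset.sum_const, Finset.card_range, nsmul_eq_mul]
      push_cast
      ring
    have h5 : (b : ℝ) * m ≤ n + b := by exact_mod_cast h2
    have h6 : (b : ℝ) * m * (g + ε) ≤ ((n : ℝ) + b) * (g + ε) :=
      mul_le_mul_of_nonneg_right h5 (by linarith)
    have h7 : (m : ℝ) * (b * gr - C) ≤ b * m * g := by
      have h8 : (b : ℝ) * gr - C ≤ b * g := by
        have := mul_le_mul_of_nonneg_left (hle (Λ r)) hbR.le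
        linarith
      calc (m : ℝ) * (b * gr - C) ≤ m * (b * g) := mul_le_mul_of_nonneg_left h8 (by positivity)
        _ = b * m * g := by ring
    nlinarith
  have hcard : (((forests G (Λ R)).filter (fun f => ∃ n ≤ N, ((n : ℝ) + b) * (g + ε)
        < SD τ (Λ R) a n (ext (Λ R) ρ₀ f) x)).card : ℝ) ≤
      ((forests G (Λ R)).filter (fun ω => ∃ m ≤ N + 1, b * ε * m <
        ∑ i ∈ Finset.range m, f0 (((T τ (Λ R) a ρ₀)^[b])^[i] ω))).card := by
    exact_mod_cast Finset.card_le_card hsub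
  refine hcard.trans ?_
  rw [hsum] at hmax
  have h9 : ((forests G (Λ R)).card : ℝ) * (b * gR - (b * gr - C))
      ≤ (forests G (Λ R)).card * (b * ε * δ) := by
    apply mul_le_mul_of_nonneg_left _ (by positivity)
    have h10 : (b : ℝ) * gR ≤ b * g := mul_le_mul_of_nonneg_left (hle (Λ R)) hbR.le
    have h11 : (b : ℝ) * (g - δ * ε / 2) ≤ b * gr := mul_le_mul_of_nonneg_left hr hbR.le
    linarith
  have h12 := hmax.trans h9
  have hbe : 0 < (b : ℝ) * ε := mul_pos hbR hε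
  refine le_of_mul_le_mul_left ?_ hbe
  linarith

end R766.RG
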