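import Pool.Agent.R766.RG.Walk

/-!
# Finite volume walks, and comparison with infinite walks
-/

open MeasureTheory Filter Topology

noncomputable section

open scoped Classical

namespace R766.RG

variable {V : Type*} {G : SimpleGraph V} {τ : ∀ x, Equiv.Perm (G.neighborSet x)}

lemma walk_congr {a : V} {ρ ρ' : Cfg G} {T : ℕ} (S : Set V)
    (hS : ∀ s < T, (walk τ a ρ s).1 ∈ S) (hag : ∀ x ∈ S, ρ x = ρ' x) :
    ∀ t ≤ T, (walk τ a ρ t).1 = (walk τ a ρ' t).1 ∧
      ∀ x ∈ S, (walk τ a ρ t).2 x = (walk τ a ρ' t).2 x := by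
  intro t
  induction t with
  | zero => exact fun _ => ⟨rfl, hag⟩
  | succ t ih =>
    intro ht
    obtain ⟨h1, h2⟩ := ih (by omega)
    have h3 := hS t (by omega)
    rw [walk_succ, walk_succ]
    generalize hs : walk τ a ρ t = s at *
    generalize hs' : walk τ a ρ' t = s' at *
    obtain ⟨x, σ⟩ := s
    obtain ⟨x', σ'⟩ := s'
    simp only at h1 h2 h3
    subst h1
    have h4 : σ x = σ' x := h2 x h3
    simp only [step]
    refine ⟨by rw [h4], fun y hy => ?_⟩
    by_cases hyx : y = x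
    · subst hyx
      rw [Function.update_self, Function.update_self, h4]
    · rw [Function.update_of_ne hyx, Function.update_of_ne hyx]
      exact h2 y hy

lemma cnt_congr {a : V} {ρ ρ' : Cfg G} {T : ℕ} (S : Set V)
    (hS : ∀ s < T, (walk τ a ρ s).1 ∈ S) (hag : ∀ x ∈ S, ρ x = ρ' x) (z : V) :
    cnt τ a ρ T z = cnt τ a ρ' T z := by
  unfold cnt
  congr 1
  refine Finset.filter_congr (fun s hs => ?_)
  rw [(walk_congr S hS hag s (Finset.mem_range.1 hs).le).1]

lemma finite_of_cnt_le {a : V} {ρ : Cfg G} {z : V} {M : ℕ} (h : ∀ T, cnt τ a ρ T z ≤ M) :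
    {t : ℕ | (walk τ a ρ t).1 = z}.Finite := by
  by_contra hinf
  obtain ⟨s, hs, hc⟩ := Set.Infinite.exists_subset_card_eq (Set.not_finite.1 hinf |> fun h => h)
    (M + 1)
  obtain ⟨T, hT⟩ := s.finite_toSet.bddAbove
  have h1 : s ⊆ (Finset.range (T + 1)).filter (fun t => (walk τ a ρ t).1 = z) := by
    intro t ht
    rw [Finset.mem_filter, Finset.mem_range]
    have := hT ht
    exact ⟨by omega, hs ht⟩
  have h2 := Finset.card_le_card h1
  have h3 := h (T + 1)
  unfold cnt at h3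
  omega

lemma cnt_eq_ncard {a : V} {ρ : Cfg G} {z : V} {T : ℕ}
    (hT : ∀ t, (walk τ a ρ t).1 = z → t < T) :
    cnt τ a ρ T z = {t : ℕ | (walk τ a ρ t).1 = z}.ncard := by
  have h1 : {t : ℕ | (walk τ a ρ t).1 = z}
      = (((Finset.range T).filter (fun t => (walk τ a ρ t).1 = z) : Finset ℕ) : Set ℕ) := by
    ext t
    simp only [Set.mem_ofPred_eq, Finset.coe_filter, Finset.mem_range]
    exact ⟨fun h => ⟨hT t h, h⟩, fun h => h.2⟩
  rw [h1, Set.ncard_coe_finset]
  rfl

section inf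

variable [G.LocallyFinite]

lemma infinite_reach {n : ℕ} {a : V} {ρ : Cfg G} {M : V → ℕ}
    (hM : ∀ v, Reach τ n a ρ v → ∀ z, v z ≤ M z) (k : ℕ) (hk : k ≤ n) :
    (∀ i < k, Transient τ a ((final τ a)^[i] ρ)) ∧
    ∀ F : Finset V, ∃ v, Reach τ n a ρ v ∧
      (∀ y ∈ F, cfg τ ρ v y = ((final τ a)^[k] ρ) y) ∧
      (∀ y ∈ F, v y = ∑ i ∈ Finset.range k,
        {t : ℕ | (walk τ a ((final τ a)^[i] ρ) t).1 = y}.ncard) ∧
      (n : ℤ) - k ≤ chips τ n a ρ v a := by
  induction k with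
  | zero =>
    refine ⟨fun i hi => absurd hi (by omega), fun F => ⟨fun _ => 0, Reach.zero, ?_, ?_, ?_⟩⟩
    · intro y _; simp [cfg]
    · intro y _; simp
    · unfold chips
      rw [inflow_zero]
      simp
  | succ k ih =>
    obtain ⟨ih1, ih2⟩ := ih (by omega)
    set ρk := (final τ a)^[k] ρ with hρk
    have key : ∀ (T : ℕ) (F : Finset V), ∃ u, Reach τ n a ρ u ∧
        (∀ y ∈ F, cfg τ ρ u y = (walk τ a ρk T).2 y) ∧
        (∀ y ∈ F, u y = (∑ i ∈ Finset.range k,
          {t : ℕ | (walk τ a ((final τ a)^[i] ρ) t).1 = y}.ncard) + cnt τ a ρk T y) ∧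
        (n : ℤ) - (k + 1) ≤ chips τ n a ρ u a := by
      intro T F
      set FT : Finset V := F ∪ (Finset.range T).image (fun s => (walk τ a ρk s).1) with hFT
      obtain ⟨v, hv1, hv2, hv3, hv4⟩ := ih2 FT
      have hchip : 1 ≤ chips τ n a ρ v a := by
        have : (k : ℤ) + 1 ≤ n := by exact_mod_cast hk
        omega
      obtain ⟨hw1, hw2, hw3⟩ := walk_reach hv1 hchip T
      have hS : ∀ s < T, (walk τ a ρk s).1 ∈ (FT : Set V) := by
        intro s hs
        rw [hFT]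
        simp only [Finset.coe_union, Finset.coe_image, Set.mem_union]
        right
        exact ⟨s, by simpa using hs, rfl⟩
      have hag : ∀ x ∈ (FT : Set V), ρk x = cfg τ ρ v x := fun x hx => (hv2 x hx).symm
      have hc := walk_congr (τ := τ) (FT : Set V) hS hag T le_rfl
      have hcnt := cnt_congr (τ := τ) (FT : Set V) hS hag
      refine ⟨_, hw1, ?_, ?_, ?_⟩
      · intro y hy
        rw [hw2]
        have : y ∈ (FT : Set V) := by
          rw [hFT]; simp only [Finset.coe_union, Set.mem_union]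
          left; exact_mod_cast hy
        exact (hc.2 y this).symm
      · intro y hy
        rw [hcnt y, hv3 y (by rw [hFT]; exact Finset.mem_union_left _ hy)]
      · rw [hw3 a, if_pos rfl]
        split_ifs <;> omega
    have htr : Transient τ a ρk := by
      intro z
      apply finite_of_cnt_le (M := M z)
      intro T
      obtain ⟨u, hu1, _, hu3, _⟩ := key T {z}
      have h1 := hM u hu1 z
      have h2 := hu3 z (Finset.mem_singleton_self z)
      omega
    refine ⟨?_, ?_⟩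
    · intro i hi
      rcases Nat.lt_succ_iff_lt_or_eq.1 hi with h | h
      · exact ih1 i h
      · rw [h]; exact htr
    · intro F
      have h1 : ∀ y ∈ F, ∀ᶠ T in atTop, (walk τ a ρk T).2 y = final τ a ρk y ∧
          ∀ t, (walk τ a ρk t).1 = y → t < T := by
        intro y _
        obtain ⟨m, hm⟩ := (htr y).bddAbove
        filter_upwards [final_spec τ htr y, eventually_gt_atTop m] with T hT hT'
        exact ⟨hT, fun t ht => lt_of_le_of_lt (hm ht) hT'⟩
      have h2 : ∀ᶠ T in atTop, ∀ y ∈ F, (walk τ a ρk T).2 y = final τ a ρk y ∧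
          ∀ t, (walk τ a ρk t).1 = y → t < T := by
        rw [Filter.eventually_all_finset]
        exact h1
      obtain ⟨T, hT⟩ := h2.exists
      obtain ⟨u, hu1, hu2, hu3, hu4⟩ := key T F
      refine ⟨u, hu1, ?_, ?_, ?_⟩
      · intro y hy
        rw [hu2 y hy, (hT y hy).1, hρk, Function.iterate_succ_apply']
      · intro y hy
        rw [hu3 y hy, Finset.sum_range_succ, cnt_eq_ncard (hT y hy).2]
      · push_cast
        exact hu4

lemma visits_le {n : ℕ} {a : V} {ρ : Cfg G} {M : V → ℕ}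
    (hM : ∀ v, Reach τ n a ρ v → ∀ z, v z ≤ M z) (x : V) :
    visits τ a n ρ x ≤ (M x : ENNReal) := by
  obtain ⟨h1, h2⟩ := infinite_reach hM n le_rfl
  obtain ⟨v, hv1, _, hv3, _⟩ := h2 {x}
  unfold visits
  rw [if_pos h1]
  have h3 := hv3 x (Finset.mem_singleton_self x)
  have h4 := hM v hv1 x
  have h5 : (∑ i ∈ Finset.range n,
      (({t : ℕ | (walk τ a ((final τ a)^[i] ρ) t).1 = x}.ncard : ℕ) : ENNReal))
      = ((v x : ℕ) : ENNReal) := by
    rw [h3]; push_cast; rfl
  rw [h5]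
  exact_mod_cast h4

end inf

/-! ### Finite volume -/

/-- The exit time of `D`. -/
def exitT (τ : ∀ x, Equiv.Perm (G.neighborSet x)) (D : Finset V) (a : V) (ρ : Cfg G) : ℕ :=
  sInf {t | (walk τ a ρ t).1 ∉ D}

/-- The configuration at the exit time. -/
def E (τ : ∀ x, Equiv.Perm (G.neighborSet x)) (D : Finset V) (a : V) (ρ : Cfg G) : Cfg G :=
  (walk τ a ρ (exitT τ D a ρ)).2

/-- Visits before the exit time. -/
def v1 (τ : ∀ x, Equiv.Perm (G.neighborSet x)) (D : Finset V) (a : V) (ρ : Cfg G) (z : V) : ℕ :=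
  cnt τ a ρ (exitT τ D a ρ) z

/-- Visits of `n` walkers stopped when leaving `D`. -/
def SD (τ : ∀ x, Equiv.Perm (G.neighborSet x)) (D : Finset V) (a : V) (n : ℕ) (ρ : Cfg G)
    (z : V) : ℕ :=
  ∑ i ∈ Finset.range n, v1 τ D a ((E τ D a)^[i] ρ) z

/-- All walks leave `D`. -/
def Leaves (τ : ∀ x, Equiv.Perm (G.neighborSet x)) (D : Finset V) (a : V) : Prop :=
  ∀ ρ : Cfg G, ∃ t, (walk τ a ρ t).1 ∉ D

lemma exit_spec {D : Finset V} {a : V} (he : Leaves τ D a) (ρ : Cfg G) :
    (walk τ a ρ (exitT τ D a ρ)).1 ∉ D := Nat.sInf_mem (s := {t | (walk τ a ρ t).1 ∉ D}) (he ρ)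

lemma before_exit {D : Finset V} {a : V} {ρ : Cfg G} {t : ℕ} (ht : t < exitT τ D a ρ) :
    (walk τ a ρ t).1 ∈ D := by
  by_contra h
  exact Nat.notMem_of_lt_sInf ht h

lemma SD_zero (D : Finset V) (a : V) (ρ : Cfg G) (z : V) : SD τ D a 0 ρ z = 0 := by simp [SD]

lemma SD_succ (D : Finset V) (a : V) (n : ℕ) (ρ : Cfg G) (z : V) :
    SD τ D a (n + 1) ρ z = SD τ D a n ρ z + v1 τ D a ((E τ D a)^[n] ρ) z := by
  simp [SD, Finset.sum_range_succ]

lemma v1_out {D : Finset V} {a : V} {ρ : Cfg G} {z : V} (hz : z ∉ D) : v1 τ D a ρ z = 0 := by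
  unfold v1 cnt
  rw [Finset.card_eq_zero, Finset.filter_eq_empty_iff]
  intro s hs hcon
  apply hz
  rw [← hcon]
  exact before_exit (Finset.mem_range.1 hs)

lemma SD_out {D : Finset V} {a : V} {n : ℕ} {ρ : Cfg G} {z : V} (hz : z ∉ D) :
    SD τ D a n ρ z = 0 := by
  unfold SD
  exact Finset.sum_eq_zero (fun i _ => v1_out hz)

lemma SD_mono_n (D : Finset V) (a : V) {n m : ℕ} (h : n ≤ m) (ρ : Cfg G) (z : V) :
    SD τ D a n ρ z ≤ SD τ D a m ρ z := by
  unfold SD
  exact Finset.sum_le_sum_of_subset (Finset.range_mono h)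

lemma SD_add (D : Finset V) (a : V) (n m : ℕ) (ρ : Cfg G) (z : V) :
    SD τ D a (n + m) ρ z = SD τ D a n ρ z + SD τ D a m ((E τ D a)^[n] ρ) z := by
  induction m with
  | zero => simp [SD_zero]
  | succ m ih =>
    rw [← add_assoc, SD_succ, ih, SD_succ, ← Function.iterate_add_apply, add_comm m n]
    ring

/-! ### Locality -/

lemma local_one {D : Finset V} {a : V} (he : Leaves τ D a) {ρ ρ' : Cfg G}
    (h : ∀ x ∈ D, ρ x = ρ' x) :
    (∀ z, v1 τ D a ρ z = v1 τ D a ρ' z) ∧ ∀ x ∈ D, E τ D a ρ x = E τ D a ρ' x := by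
  have hS : ∀ s < exitT τ D a ρ, (walk τ a ρ s).1 ∈ (D : Set V) := fun s hs => before_exit hs
  have hag : ∀ x ∈ (D : Set V), ρ x = ρ' x := fun x hx => h x hx
  have hc := walk_congr (τ := τ) (D : Set V) hS hag
  have hT : exitT τ D a ρ' = exitT τ D a ρ := by
    apply le_antisymm
    · apply Nat.sInf_le
      change (walk τ a ρ' (exitT τ D a ρ)).1 ∉ D
      rw [← (hc _ le_rfl).1]
      exact exit_spec he ρ
    · by_contra hlt
      push Not at hlt
      have h1 := exit_spec he ρ'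
      rw [← (hc _ hlt.le).1] at h1
      exact h1 (before_exit hlt)
  refine ⟨fun z => ?_, fun x hx => ?_⟩
  · unfold v1
    rw [hT]
    exact cnt_congr (D : Set V) hS hag z
  · unfold E
    rw [hT]
    exact (hc _ le_rfl).2 x hx

lemma SD_congr {D : Finset V} {a : V} (he : Leaves τ D a) {ρ ρ' : Cfg G}
    (h : ∀ x ∈ D, ρ x = ρ' x) (n : ℕ) (z : V) : SD τ D a n ρ z = SD τ D a n ρ' z := by
  have h1 : ∀ i, ∀ x ∈ D, ((E τ D a)^[i] ρ) x = ((E τ D a)^[i] ρ') x := by
    intro i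
    induction i with
    | zero => exact h
    | succ i ih =>
      rw [Function.iterate_succ_apply', Function.iterate_succ_apply']
      exact (local_one he ih).2
  unfold SD
  exact Finset.sum_congr rfl (fun i _ => (local_one he (h1 i)).1 z)

/-! ### Abelian property -/

variable [G.LocallyFinite]

lemma SD_reach {D : Finset V} {a : V} (he : Leaves τ D a) (ha : a ∈ D) (n : ℕ) (ρ : Cfg G)
    (k : ℕ) (hk : k ≤ n) :
    Reach τ n a ρ (SD τ D a k ρ) ∧ cfg τ ρ (SD τ D a k ρ) = (E τ D a)^[k] ρ ∧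
      ∀ z ∈ D, chips τ n a ρ (SD τ D a k ρ) z = if z = a then (n : ℤ) - k else 0 := by
  induction k with
  | zero =>
    have h0 : SD τ D a 0 ρ = fun _ => 0 := by funext z; exact SD_zero D a ρ z
    rw [h0]
    refine ⟨Reach.zero, by funext y; simp [cfg], fun z _ => ?_⟩
    unfold chips
    rw [inflow_zero]
    simp
  | succ k ih =>
    obtain ⟨h1, h2, h3⟩ := ih (by omega)
    have hchip : 1 ≤ chips τ n a ρ (SD τ D a k ρ) a := by
      rw [h3 a ha, if_pos rfl]
      have : (k : ℤ) + 1 ≤ n := by exact_mod_cast hk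
      omega
    obtain ⟨hw1, hw2, hw3⟩ := walk_reach h1 hchip (exitT τ D a ((E τ D a)^[k] ρ))
    rw [h2] at hw1 hw2 hw3
    have hS : (fun z => SD τ D a k ρ z + cnt τ a ((E τ D a)^[k] ρ)
        (exitT τ D a ((E τ D a)^[k] ρ)) z) = SD τ D a (k + 1) ρ := by
      funext z
      rw [SD_succ]
      rfl
    rw [hS] at hw1 hw2 hw3
    refine ⟨hw1, ?_, ?_⟩
    · rw [hw2, Function.iterate_succ_apply']
      rfl
    · intro z hz
      rw [hw3 z, h3 z hz, if_neg (c := z = (walk τ a ((E τ D a)^[k] ρ)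
        (exitT τ D a ((E τ D a)^[k] ρ))).1)]
      · push_cast
        split_ifs <;> ring
      · intro h
        exact exit_spec he _ (h ▸ hz)

lemma le_SD {D : Finset V} {a : V} (he : Leaves τ D a) (ha : a ∈ D) {n : ℕ} {ρ : Cfg G}
    {v : V → ℕ} (hv : Reach τ n a ρ v) (hD : ∀ y, 0 < v y → y ∈ D) (z : V) :
    v z ≤ SD τ D a n ρ z := by
  refine hv.least (fun y hy => ?_) z
  rw [(SD_reach he ha n ρ n le_rfl).2.2 y (hD y hy)]
  simp

lemma SD_mono {D D' : Finset V} {a : V} (he : Leaves τ D a) (he' : Leaves τ D' a) (ha : a ∈ D)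
    (hDD : D ⊆ D') (n : ℕ) (ρ : Cfg G) (z : V) : SD τ D a n ρ z ≤ SD τ D' a n ρ z := by
  refine le_SD he' (hDD ha) (SD_reach he ha n ρ n le_rfl).1 (fun y hy => ?_) z
  by_contra hyD
  rw [SD_out (fun h => hyD (hDD h))] at hy
  exact lt_irrefl _ hy

/-- Comparison of the infinite walks with the stopped walks. -/
lemma visits_le_of_SD {a : V} (Λ : ℕ → Finset V) (hmono : Monotone Λ) (hex : ∀ x, ∃ R, x ∈ Λ R)
    (he : ∀ R, Leaves τ (Λ R) a) {n : ℕ} {ρ : Cfg G} {M : V → ℕ}
    (hM : ∀ R z, SD τ (Λ R) a n ρ z ≤ M z) (x : V) :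
    visits τ a n ρ x ≤ (M x : ENNReal) := by
  refine visits_le (fun v hv z => ?_) x
  obtain ⟨s, hs⟩ := hv.finite_support.exists_finset_coe
  choose r hr using hex
  set R := (insert a s).sup r with hR
  have h1 : ∀ y ∈ insert a s, y ∈ Λ R := fun y hy => hmono (Finset.le_sup hy) (hr y)
  refine (le_SD (he R) (h1 a (Finset.mem_insert_self _ _)) hv (fun y hy => ?_) z).trans (hM R z)
  apply h1
  apply Finset.mem_insert_of_mem
  have : y ∈ (s : Set V) := by rw [hs]; exact hy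
  exact this

end R766.RG
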