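import Mathlib

/-!
# Rotor walk on a locally finite graph, and the abelian property
-/

open MeasureTheory Filter Topology

noncomputable section

open scoped Classical

namespace R766.RG

variable {V : Type*} (G : SimpleGraph V)

/-- A rotor configuration: the rotor at each vertex points to a neighbour. -/
abbrev Cfg := ∀ x : V, G.neighborSet x

/-- The discrete sigma-algebra on the set of neighbours of `x`; configurations carry the
product sigma-algebra. -/
instance nbMeas (x : V) : MeasurableSpace (G.neighborSet x) := ⊤

variable {G}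

/-- A permutation with a single orbit. -/
def SingleOrbit {α : Type*} (σ : Equiv.Perm α) : Prop := ∀ e e' : α, ∃ k : ℕ, (σ ^ k) e = e'

/-- One step of rotor walk from the state (position, configuration): the rotor at the position
is advanced by the mechanism and the walker moves where the new rotor points. -/
def step (τ : ∀ x, Equiv.Perm (G.neighborSet x)) (s : V × Cfg G) : V × Cfg G :=
  ((τ s.1 (s.2 s.1) : V), Function.update s.2 s.1 (τ s.1 (s.2 s.1)))

/-- The state of rotor walk from `a` with initial configuration `ρ` at time `t`. -/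
def walk (τ : ∀ x, Equiv.Perm (G.neighborSet x)) (a : V) (ρ : Cfg G) (t : ℕ) : V × Cfg G :=
  (step τ)^[t] (a, ρ)

/-- The walk visits every vertex finitely often. -/
def Transient (τ : ∀ x, Equiv.Perm (G.neighborSet x)) (a : V) (ρ : Cfg G) : Prop :=
  ∀ x, {t : ℕ | (walk τ a ρ t).1 = x}.Finite

/-- The final rotor configuration: at `x`, the eventual value of the rotor at `x`
(and the initial value if there is no eventual value). -/
def final (τ : ∀ x, Equiv.Perm (G.neighborSet x)) (a : V) (ρ : Cfg G) : Cfg G :=
  fun x => if h : ∃ e, ∀ᶠ t in atTop, (walk τ a ρ t).2 x = e then h.choose else ρ x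

/-- The number of visits to `x` during `n` successive walks from `a`, rotors never being reset,
and `∞` if one of these walks is not transient. -/
def visits (τ : ∀ x, Equiv.Perm (G.neighborSet x)) (a : V) (n : ℕ) (ρ : Cfg G) (x : V) :
    ENNReal :=
  if ∀ i < n, Transient τ a ((final τ a)^[i] ρ) then
    ∑ i ∈ Finset.range n, (({t : ℕ | (walk τ a ((final τ a)^[i] ρ) t).1 = x}.ncard : ℕ) : ENNReal)
  else ⊤

variable (τ : ∀ x, Equiv.Perm (G.neighborSet x))

lemma walk_zero (a : V) (ρ : Cfg G) : walk τ a ρ 0 = (a, ρ) := rfl

lemma walk_succ (a : V) (ρ : Cfg G) (t : ℕ) : walk τ a ρ (t + 1) = step τ (walk τ a ρ t) := by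
  simp only [walk, Function.iterate_succ_apply']

lemma final_spec {a : V} {ρ : Cfg G} (hT : Transient τ a ρ) (x : V) :
    ∀ᶠ t in atTop, (walk τ a ρ t).2 x = final τ a ρ x := by
  have hex : ∃ e, ∀ᶠ t in atTop, (walk τ a ρ t).2 x = e := by
    obtain ⟨M, hM⟩ := (hT x).bddAbove
    have hM' : ∀ t, M < t → (walk τ a ρ t).1 ≠ x := by
      intro t ht hx
      exact absurd (hM hx) (not_le.2 ht)
    refine ⟨(walk τ a ρ (M + 1)).2 x, ?_⟩
    filter_upwards [eventually_ge_atTop (M + 1)] with t ht
    induction t, ht using Nat.le_induction with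
    | base => rfl
    | succ t ht ih =>
      rw [walk_succ]
      simp only [step]
      rw [Function.update_of_ne (hM' t (by omega)).symm]
      exact ih
  have : final τ a ρ x = hex.choose := by
    unfold final
    rw [dif_pos hex]
  rw [this]
  exact hex.choose_spec

/-- The number of visits to `z` strictly before time `t`. -/
def cnt (a : V) (ρ : Cfg G) (t : ℕ) (z : V) : ℕ :=
  ((Finset.range t).filter (fun s => (walk τ a ρ s).1 = z)).card

lemma cnt_zero (a : V) (ρ : Cfg G) (z : V) : cnt τ a ρ 0 z = 0 := by simp [cnt]

lemma cnt_succ (a : V) (ρ : Cfg G) (t : ℕ) (z : V) :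
    cnt τ a ρ (t + 1) z = cnt τ a ρ t z + if (walk τ a ρ t).1 = z then 1 else 0 := by
  unfold cnt
  rw [Finset.range_add_one, Finset.filter_insert]
  split_ifs with h
  · rw [Finset.card_insert_of_notMem (by simp)]
  · simp

/-! ### Firings -/

/-- The configuration after firing each `y` exactly `v y` times. -/
def cfg (ρ : Cfg G) (v : V → ℕ) : Cfg G := fun y => ((τ y) ^ (v y)) (ρ y)

variable [G.LocallyFinite]

/-- The number of chips received by `z` when each `y` is fired `v y` times. -/
def inflow (ρ : Cfg G) (v : V → ℕ) (z : V) : ℕ :=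
  ∑ y ∈ G.neighborFinset z,
    ((Finset.range (v y)).filter (fun i => ((((τ y) ^ (i + 1)) (ρ y) : G.neighborSet y) : V) = z)).card

/-- The number of chips at `z` if `n` chips start at `a` and each `y` is fired `v y` times. -/
def chips (n : ℕ) (a : V) (ρ : Cfg G) (v : V → ℕ) (z : V) : ℤ :=
  (if z = a then (n : ℤ) else 0) + inflow τ ρ v z - v z

lemma inflow_mono (ρ : Cfg G) {v v' : V → ℕ} (h : ∀ y, v y ≤ v' y) (z : V) :
    inflow τ ρ v z ≤ inflow τ ρ v' z := by
  unfold inflow
  refine Finset.sum_le_sum (fun y _ => Finset.card_le_card ?_)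
  refine Finset.filter_subset_filter _ ?_
  exact Finset.range_mono (h y)

lemma inflow_zero (ρ : Cfg G) (z : V) : inflow τ ρ (fun _ => 0) z = 0 := by
  simp [inflow]

lemma inflow_update (ρ : Cfg G) (v : V → ℕ) (y z : V) :
    inflow τ ρ (Function.update v y (v y + 1)) z = inflow τ ρ v z +
      if ((((τ y) ^ (v y + 1)) (ρ y) : G.neighborSet y) : V) = z then 1 else 0 := by
  unfold inflow
  by_cases hy : y ∈ G.neighborFinset z
  · rw [← Finset.add_sum_erase _ _ hy, ← Finset.add_sum_erase (G.neighborFinset z) (fun y =>
      ((Finset.range (v y)).filter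
        (fun i => ((((τ y) ^ (i + 1)) (ρ y) : G.neighborSet y) : V) = z)).card) hy]
    have h1 : ∀ y' ∈ (G.neighborFinset z).erase y,
        ((Finset.range (Function.update v y (v y + 1) y')).filter
          (fun i => ((((τ y') ^ (i + 1)) (ρ y') : G.neighborSet y') : V) = z)).card
        = ((Finset.range (v y')).filter
          (fun i => ((((τ y') ^ (i + 1)) (ρ y') : G.neighborSet y') : V) = z)).card := by
      intro y' hy'
      rw [Function.update_of_ne (Finset.ne_of_mem_erase hy')]
    rw [Finset.sum_congr rfl h1, Function.update_self, Finset.range_add_one, Finset.filter_insert]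
    split_ifs with h
    · rw [Finset.card_insert_of_notMem (by simp)]
      ring
    · ring
  · have h2 : ((((τ y) ^ (v y + 1)) (ρ y) : G.neighborSet y) : V) ≠ z := by
      intro h
      apply hy
      have h3 := (((τ y) ^ (v y + 1)) (ρ y)).2
      rw [h] at h3
      rw [SimpleGraph.mem_neighborFinset]
      exact h3.symm
    rw [if_neg h2, add_zero]
    refine Finset.sum_congr rfl (fun y' hy' => ?_)
    rw [Function.update_of_ne]
    rintro rfl
    exact hy hy'

lemma chips_update (n : ℕ) (a : V) (ρ : Cfg G) (v : V → ℕ) (y z : V) :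
    chips τ n a ρ (Function.update v y (v y + 1)) z = chips τ n a ρ v z +
      (if ((((τ y) ^ (v y + 1)) (ρ y) : G.neighborSet y) : V) = z then 1 else 0)
        - (if y = z then 1 else 0) := by
  unfold chips
  rw [inflow_update]
  by_cases hyz : y = z
  · subst hyz
    rw [Function.update_self]
    push_cast
    simp only [if_true]
    ring
  · rw [Function.update_of_ne (Ne.symm hyz), if_neg hyz]
    push_cast
    ring

/-- The vectors of numbers of firings which can be reached by legal firings, when `n` chips
start at `a`. -/
inductive Reach (n : ℕ) (a : V) (ρ : Cfg G) : (V → ℕ) → Prop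
  | zero : Reach n a ρ (fun _ => 0)
  | fire (v : V → ℕ) (y : V) (h : Reach n a ρ v) (hy : 1 ≤ chips τ n a ρ v y) :
      Reach n a ρ (Function.update v y (v y + 1))

variable {τ}

lemma Reach.chips_nonneg {n : ℕ} {a : V} {ρ : Cfg G} {v : V → ℕ} (h : Reach τ n a ρ v) (z : V) :
    0 ≤ chips τ n a ρ v z := by
  induction h generalizing z with
  | zero =>
    unfold chips
    rw [inflow_zero]
    split_ifs <;> simp
  | fire v y h hy ih =>
    rw [chips_update]
    have := ih z
    by_cases hyz : y = z
    · subst hyz
      split_ifs <;> omega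
    · rw [if_neg hyz]
      split_ifs <;> omega

/-- The least action principle. -/
lemma Reach.least {n : ℕ} {a : V} {ρ : Cfg G} {v v' : V → ℕ} (h : Reach τ n a ρ v)
    (hs : ∀ y, 0 < v y → chips τ n a ρ v' y ≤ 0) : ∀ z, v z ≤ v' z := by
  induction h with
  | zero => exact fun z => Nat.zero_le _
  | fire v y h hy ih =>
    have hle : ∀ z, v z ≤ Function.update v y (v y + 1) z := by
      intro z
      by_cases hz : z = y
      · subst hz; simp
      · rw [Function.update_of_ne hz]
    have h1 : ∀ z, v z ≤ v' z := ih (fun z hz => hs z (lt_of_lt_of_le hz (hle z)))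
    intro z
    by_cases hz : z = y
    · subst hz
      rw [Function.update_self]
      by_contra hcon
      have h2 : v z = v' z := by have := h1 z; omega
      have h3 := hs z (by rw [Function.update_self]; omega)
      have h4 := inflow_mono τ ρ h1 z
      unfold chips at hy h3
      omega
    · rw [Function.update_of_ne hz]
      exact h1 z

lemma Reach.finite_support {n : ℕ} {a : V} {ρ : Cfg G} {v : V → ℕ} (h : Reach τ n a ρ v) :
    {y | 0 < v y}.Finite := by
  induction h with
  | zero => simp
  | fire v y h hy ih =>
    refine (ih.insert y).subset ?_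
    intro z hz
    by_cases hzy : z = y
    · exact Or.inl hzy
    · right
      simp only [Set.mem_ofPred_eq] at hz ⊢
      rwa [Function.update_of_ne hzy] at hz

/-- Walking on from a reachable state with a chip at the walker. -/
lemma walk_reach {n : ℕ} {a : V} {ρ : Cfg G} {v : V → ℕ} (h : Reach τ n a ρ v) {x : V}
    (hx : 1 ≤ chips τ n a ρ v x) (T : ℕ) :
    Reach τ n a ρ (fun z => v z + cnt τ x (cfg τ ρ v) T z) ∧
    cfg τ ρ (fun z => v z + cnt τ x (cfg τ ρ v) T z) = (walk τ x (cfg τ ρ v) T).2 ∧
    ∀ z, chips τ n a ρ (fun z => v z + cnt τ x (cfg τ ρ v) T z) z =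
      chips τ n a ρ v z - (if z = x then 1 else 0) +
        (if z = (walk τ x (cfg τ ρ v) T).1 then 1 else 0) := by
  induction T with
  | zero =>
    have h0 : (fun z => v z + cnt τ x (cfg τ ρ v) 0 z) = v := by
      funext z; rw [cnt_zero, add_zero]
    rw [h0, walk_zero]
    refine ⟨h, rfl, fun z => ?_⟩
    simp
  | succ T ih =>
    obtain ⟨ih1, ih2, ih3⟩ := ih
    set ρv := cfg τ ρ v with hρv
    set u : V → ℕ := fun z => v z + cnt τ x ρv T z with hu
    set w := (walk τ x ρv T).1 with hw
    have hu' : (fun z => v z + cnt τ x ρv (T + 1) z) = Function.update u w (u w + 1) := by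
      funext z
      by_cases hz : z = w
      · subst hz
        rw [Function.update_self, cnt_succ, if_pos hw.symm]
        simp only [hu]
        ring
      · rw [Function.update_of_ne hz, cnt_succ, if_neg (Ne.symm hz)]
        simp [hu]
    have hnn := h.chips_nonneg
    have h1 : 1 ≤ chips τ n a ρ u w := by
      rw [ih3 w, if_pos rfl]
      by_cases hwx : w = x
      · rw [if_pos hwx, hwx]; omega
      · rw [if_neg hwx]
        have := hnn w
        omega
    have hcfg : ((τ w) ^ (u w + 1)) (ρ w) = τ w ((walk τ x ρv T).2 w) := by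
      have h2 := congrFun ih2 w
      rw [← h2]
      simp only [cfg]
      rw [pow_succ', Equiv.Perm.mul_apply]
    rw [hu']
    refine ⟨Reach.fire u w ih1 h1, ?_, ?_⟩
    · rw [walk_succ]
      funext z
      simp only [step, cfg]
      by_cases hz : z = w
      · subst hz
        rw [Function.update_self, Function.update_self]
        exact hcfg
      · rw [Function.update_of_ne hz, Function.update_of_ne hz]
        exact congrFun ih2 z
    · intro z
      rw [chips_update, ih3 z, hcfg, walk_succ]
      simp only [step]
      by_cases hz : z = w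
      · rw [if_pos hz, if_pos hz.symm]
        by_cases h5 : ((τ w ((walk τ x ρv T).2 w)) : V) = z
        · rw [if_pos h5.symm, if_pos h5]; ring
        · rw [if_neg (Ne.symm h5), if_neg h5]; ring
      · rw [if_neg hz, if_neg (Ne.symm hz)]
        by_cases h5 : ((τ w ((walk τ x ρv T).2 w)) : V) = z
        · rw [if_pos h5.symm, if_pos h5]; ring
        · rw [if_neg (Ne.symm h5), if_neg h5]; ring

end R766.RG
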